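import Pool.Agent.H50.Bose.Defs

/-!
# Two classes of three-body potentials
-/

set_option autoImplicit false

namespace Pool.Agent.H98.Bose2

open Pool.Agent.H50.Bose

/-- The three-body potential is bounded below by a positive constant near the origin. -/
def HasCore (V : (Fin 3 → ℝ) → (Fin 3 → ℝ) → ℝ) : Prop :=
  ∃ c : ℝ, 0 < c ∧ ∃ r : ℝ, 0 < r ∧ ∀ x y, len x ≤ r → len y ≤ r → c ≤ V x y

/-- The three-body potential vanishes near the origin. -/
def IsHollow (V : (Fin 3 → ℝ) → (Fin 3 → ℝ) → ℝ) : Prop :=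
  ∃ r : ℝ, 0 < r ∧ ∀ x y, len x ≤ r → len y ≤ r → V x y = 0

end Pool.Agent.H98.Bose2
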