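import Pool.Agent.H98.Bose2.OneStep
import Pool.Agent.H50.Bose.Integ

/-!
# Moving a pair to larger scales

The mass of `|ψ|²` on the configurations with particles `i`, `j` in one small cell is moved to
larger and larger cells, as long as the cell of `j` is not crowded.
-/

set_option autoImplicit false

namespace Pool.Agent.H98.Bose2

open MeasureTheory Set Pool.Agent.H50.Bose

section Defs

variable {κ : Type} [Fintype κ] [DecidableEq κ]

/-- Number of particles other than `i` in the cell of particle `j`. -/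
def mq (i j : κ) (q : κ → Fin 3 → ℤ) : ℕ := (Finset.univ.filter fun l => l ≠ i ∧ q l = q j).card

/-- Number of particles other than `i` in the cell of side `r` of particle `j`. -/
noncomputable def mnum (r : ℝ) (i j : κ) (X : Cfg κ) : ℕ := mq i j fun l => cellOf r (X l)

/-- The cell is not crowded. -/
noncomputable def good (T r : ℝ) (i j : κ) (X : Cfg κ) : ENNReal :=
  if (mnum r i j X : ℝ) ≤ T then 1 else 0

/-- The cell is crowded. -/
noncomputable def bad (T r : ℝ) (i j : κ) (X : Cfg κ) : ENNReal :=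
  if (mnum r i j X : ℝ) ≤ T then 0 else 1

theorem good_add_bad (T r : ℝ) (i j : κ) (X : Cfg κ) : good T r i j X + bad T r i j X = 1 := by
  unfold good bad
  split_ifs <;> simp

theorem good_le_one (T r : ℝ) (i j : κ) (X : Cfg κ) : good T r i j X ≤ 1 := by
  unfold good
  split_ifs <;> simp

omit [Fintype κ] [DecidableEq κ] in
theorem measurable_cells (r : ℝ) : Measurable fun X : Cfg κ => (fun l => cellOf r (X l)) := by
  rw [measurable_pi_iff]
  intro l
  exact (measurable_cellOf r).comp (measurable_pi_apply l)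

theorem measurable_good (T r : ℝ) (i j : κ) : Measurable (good T r i j : Cfg κ → ENNReal) := by
  have h2 : Measurable fun q : κ → Fin 3 → ℤ =>
      (if (mq i j q : ℝ) ≤ T then 1 else 0 : ENNReal) := measurable_of_countable _
  exact h2.comp (measurable_cells r)

theorem measurable_bad (T r : ℝ) (i j : κ) : Measurable (bad T r i j : Cfg κ → ENNReal) := by
  have h2 : Measurable fun q : κ → Fin 3 → ℤ =>
      (if (mq i j q : ℝ) ≤ T then 0 else 1 : ENNReal) := measurable_of_countable _
  exact h2.comp (measurable_cells r)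

theorem mnum_congr (r : ℝ) {i j : κ} (hij : i ≠ j) {X Y : Cfg κ}
    (h : ∀ l, l ≠ i → X l = Y l) : mnum r i j X = mnum r i j Y := by
  unfold mnum mq
  congr 1
  ext l
  simp only [Finset.mem_filter, Finset.mem_univ, true_and]
  constructor
  · rintro ⟨h1, h2⟩
    refine ⟨h1, ?_⟩
    rw [← h l h1, ← h j hij.symm]
    exact h2
  · rintro ⟨h1, h2⟩
    refine ⟨h1, ?_⟩
    rw [h l h1, h j hij.symm]
    exact h2

/-- All cells of smaller scale are not crowded. -/
noncomputable def alive (T : ℕ → ℝ) (r : ℝ) (k : ℕ) (i j : κ) (X : Cfg κ) : ENNReal :=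
  ∏ l ∈ Finset.range k, good (T l) (2 ^ l * r) i j X

theorem measurable_alive (T : ℕ → ℝ) (r : ℝ) (k : ℕ) (i j : κ) :
    Measurable (alive T r k i j : Cfg κ → ENNReal) := by
  unfold alive
  exact Finset.measurable_fun_prod _ fun l _ => measurable_good _ _ _ _

theorem alive_succ (T : ℕ → ℝ) (r : ℝ) (k : ℕ) (i j : κ) (X : Cfg κ) :
    alive T r (k + 1) i j X = alive T r k i j X * good (T k) (2 ^ k * r) i j X := by
  unfold alive
  rw [Finset.prod_range_succ]

theorem alive_le_one (T : ℕ → ℝ) (r : ℝ) (k : ℕ) (i j : κ) (X : Cfg κ) :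
    alive T r k i j X ≤ 1 := by
  unfold alive
  exact Finset.prod_le_one' fun l _ => good_le_one _ _ _ _ _

theorem alive_congr (T : ℕ → ℝ) (r : ℝ) (k : ℕ) {i j : κ} (hij : i ≠ j) {X Y : Cfg κ}
    (h : ∀ l, l ≠ i → X l = Y l) : alive T r k i j X = alive T r k i j Y := by
  unfold alive
  apply Finset.prod_congr rfl
  intro l _
  unfold good
  rw [mnum_congr _ hij h]

end Defs

section Chain

variable {κ : Type} [Fintype κ] [DecidableEq κ]

theorem chain_step {ψ : Cfg κ → ℂ} (hψ : ContDiff ℝ 1 ψ) {i j : κ} (hij : i ≠ j) (T : ℕ → ℝ)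
    {r : ℝ} (hr : 0 < r) (k : ℕ) {δ : ℝ} (hδ : 0 < δ) :
    ∫⁻ X, alive T r k i j X * same (2 ^ k * r) i j X * ENNReal.ofReal (‖ψ X‖ ^ 2) ≤
      (∫⁻ X, bad (T k) (2 ^ k * r) i j X * same (2 ^ k * r) i j X *
        ENNReal.ofReal (‖ψ X‖ ^ 2)) +
      ENNReal.ofReal ((1 + δ) / 8) * (∫⁻ X, alive T r (k + 1) i j X *
        same (2 ^ (k + 1) * r) i j X * ENNReal.ofReal (‖ψ X‖ ^ 2)) +
      ENNReal.ofReal ((1 + 1 / δ) * (96 * (2 ^ k * r) ^ 2)) *
        ∫⁻ X, alive T r (k + 1) i j X * same (2 ^ (k + 1) * r) i j X *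
          ENNReal.ofReal (gradp ψ i X) := by
  have hψc := hψ.continuous
  have ha := measurable_alive (κ := κ) T r k i j
  have ha1 := measurable_alive (κ := κ) T r (k + 1) i j
  have hs := measurable_same (κ := κ) (2 ^ k * r) i j
  have hb := measurable_bad (κ := κ) (T k) (2 ^ k * r) i j
  have h1 := particle_step hψ hij ha1 (fun X Y h => alive_congr T r (k + 1) hij h)
    (r := 2 ^ k * r) (by positivity) hδ
  have e2 : 2 * (2 ^ k * r) = 2 ^ (k + 1) * r := by
    rw [pow_succ]
    ring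
  rw [e2] at h1
  have h2 : ∫⁻ X, alive T r k i j X * same (2 ^ k * r) i j X * ENNReal.ofReal (‖ψ X‖ ^ 2) ≤
      (∫⁻ X, bad (T k) (2 ^ k * r) i j X * same (2 ^ k * r) i j X *
        ENNReal.ofReal (‖ψ X‖ ^ 2)) +
      ∫⁻ X, alive T r (k + 1) i j X * same (2 ^ k * r) i j X * ENNReal.ofReal (‖ψ X‖ ^ 2) := by
    rw [← lintegral_add_left (by fun_prop)]
    apply lintegral_mono
    intro X
    show alive T r k i j X * same (2 ^ k * r) i j X * ENNReal.ofReal (‖ψ X‖ ^ 2) ≤
      bad (T k) (2 ^ k * r) i j X * same (2 ^ k * r) i j X * ENNReal.ofReal (‖ψ X‖ ^ 2) +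
      alive T r (k + 1) i j X * same (2 ^ k * r) i j X * ENNReal.ofReal (‖ψ X‖ ^ 2)
    rw [alive_succ, ← add_mul, ← add_mul]
    have h3 : alive T r k i j X ≤ bad (T k) (2 ^ k * r) i j X +
        alive T r k i j X * good (T k) (2 ^ k * r) i j X := by
      calc alive T r k i j X = alive T r k i j X * 1 := (mul_one _).symm
        _ = alive T r k i j X * good (T k) (2 ^ k * r) i j X +
            alive T r k i j X * bad (T k) (2 ^ k * r) i j X := by
          rw [← good_add_bad (T k) (2 ^ k * r) i j X, mul_add]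
        _ ≤ alive T r k i j X * good (T k) (2 ^ k * r) i j X +
            1 * bad (T k) (2 ^ k * r) i j X := by
          gcongr
          exact alive_le_one _ _ _ _ _ _
        _ = _ := by
          rw [one_mul, add_comm]
    gcongr
  refine h2.trans ?_
  rw [add_assoc]
  gcongr

/-- The estimate for one pair. -/
theorem chain {ψ : Cfg κ → ℂ} (hψ : ContDiff ℝ 1 ψ) {i j : κ} (hij : i ≠ j) (T : ℕ → ℝ)
    {r : ℝ} (hr : 0 < r) {δ p : ℕ → ℝ} (hδ : ∀ k, 0 < δ k) (hp0 : p 0 = 1) (hpn : ∀ k, 0 ≤ p k)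
    (hp : ∀ k, p (k + 1) = p k * ((1 + δ k) / 8)) (K : ℕ) :
    ∫⁻ X, same r i j X * ENNReal.ofReal (‖ψ X‖ ^ 2) ≤
      (∑ k ∈ Finset.range K, ENNReal.ofReal (p k) *
        ∫⁻ X, bad (T k) (2 ^ k * r) i j X * same (2 ^ k * r) i j X *
        ENNReal.ofReal (‖ψ X‖ ^ 2)) +
      (∑ k ∈ Finset.range K, ENNReal.ofReal (p k * ((1 + 1 / δ k) * (96 * (2 ^ k * r) ^ 2))) *
        ∫⁻ X, alive T r (k + 1) i j X * same (2 ^ (k + 1) * r) i j X *
          ENNReal.ofReal (gradp ψ i X)) +
      ENNReal.ofReal (p K) * ∫⁻ X, alive T r K i j X * same (2 ^ K * r) i j X *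
        ENNReal.ofReal (‖ψ X‖ ^ 2) := by
  induction K with
  | zero =>
    simp only [Finset.range_zero, Finset.sum_empty, zero_add, hp0, ENNReal.ofReal_one, one_mul,
      pow_zero, alive, Finset.prod_empty, le_refl]
  | succ K ih =>
    refine ih.trans ?_
    have h1 := chain_step hψ hij T hr K (hδ K)
    rw [Finset.sum_range_succ, Finset.sum_range_succ]
    set A := ∫⁻ X, alive T r K i j X * same (2 ^ K * r) i j X * ENNReal.ofReal (‖ψ X‖ ^ 2)
    set A' := ∫⁻ X, alive T r (K + 1) i j X * same (2 ^ (K + 1) * r) i j X *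
        ENNReal.ofReal (‖ψ X‖ ^ 2)
    set B := ∫⁻ X, bad (T K) (2 ^ K * r) i j X * same (2 ^ K * r) i j X *
        ENNReal.ofReal (‖ψ X‖ ^ 2)
    set G := ∫⁻ X, alive T r (K + 1) i j X * same (2 ^ (K + 1) * r) i j X *
          ENNReal.ofReal (gradp ψ i X)
    have hd := hδ K
    have h2 : ENNReal.ofReal (p K) * A ≤ ENNReal.ofReal (p K) * B +
        ENNReal.ofReal (p K * ((1 + 1 / δ K) * (96 * (2 ^ K * r) ^ 2))) * G +
        ENNReal.ofReal (p (K + 1)) * A' := by
      calc ENNReal.ofReal (p K) * A ≤ ENNReal.ofReal (p K) * (B +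
            ENNReal.ofReal ((1 + δ K) / 8) * A' +
            ENNReal.ofReal ((1 + 1 / δ K) * (96 * (2 ^ K * r) ^ 2)) * G) := by gcongr
        _ = _ := by
          rw [hp K, ENNReal.ofReal_mul (hpn K), ENNReal.ofReal_mul (hpn K)]
          ring
    calc _ ≤ _ := add_le_add_right h2 _
      _ = _ := by ring

end Chain

section Count

variable {κ : Type} [Fintype κ] [DecidableEq κ]

theorem children_card (b : Fin 3 → ℤ) :
    (Fintype.piFinset fun a => Finset.Ico (2 * b a) (2 * b a + 2)).card = 8 := by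
  rw [Fintype.card_piFinset]
  have h5 : ∀ a : Fin 3, (Finset.Ico (2 * b a) (2 * b a + 2)).card = 2 := by
    intro a
    rw [Int.card_Ico]
    have : 2 * b a + 2 - 2 * b a = 2 := by ring
    rw [this]
    rfl
  simp_rw [h5]
  rfl

/-- The number of particles in the large cell of `i` whose own small cell is not crowded. -/
theorem count_alive {r T : ℝ} (hr : 0 < r) (hT : 0 ≤ T) (i : κ) (X : Cfg κ) :
    ((Finset.univ.filter fun j => i ≠ j ∧ cellOf (2 * r) (X i) = cellOf (2 * r) (X j) ∧
      (mnum r i j X : ℝ) ≤ T).card : ℝ) ≤ 8 * T := by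
  set S := Finset.univ.filter fun j => i ≠ j ∧ cellOf (2 * r) (X i) = cellOf (2 * r) (X j) ∧
      (mnum r i j X : ℝ) ≤ T with hS
  set q : κ → Fin 3 → ℤ := fun l => cellOf r (X l) with hq
  have h1 : (S.card : ℝ) = ∑ d ∈ S.image q, ((S.filter fun x => q x = d).card : ℝ) := by
    rw [Finset.card_eq_sum_card_image q S]
    push_cast
    rfl
  have h2 : ∀ d ∈ S.image q, ((S.filter fun x => q x = d).card : ℝ) ≤ T := by
    intro d hd
    obtain ⟨j, hj, rfl⟩ := Finset.mem_image.mp hd
    have hj' := (Finset.mem_filter.mp hj).2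
    refine le_trans ?_ hj'.2.2
    have : (S.filter fun x => q x = q j).card ≤ mnum r i j X := by
      unfold mnum mq
      apply Finset.card_le_card
      intro x hx
      simp only [Finset.mem_filter, Finset.mem_univ, true_and, hS] at hx ⊢
      exact ⟨hx.1.1.symm, hx.2⟩
    exact_mod_cast this
  have h3 : S.image q ⊆ Fintype.piFinset fun a =>
      Finset.Ico (2 * (cellOf (2 * r) (X i) a)) (2 * (cellOf (2 * r) (X i) a) + 2) := by
    intro d hd
    obtain ⟨j, hj, rfl⟩ := Finset.mem_image.mp hd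
    have hj' := (Finset.mem_filter.mp hj).2
    rw [Fintype.mem_piFinset]
    intro a
    rw [hj'.2.1]
    have e : cellOf (2 * r) (X j) a = q j a / 2 := floor_two_mul hr
    rw [e, Finset.mem_Ico]
    omega
  have h4 : (S.image q).card ≤ 8 := (Finset.card_le_card h3).trans (le_of_eq (children_card _))
  have h4' : ((S.image q).card : ℝ) ≤ 8 := by exact_mod_cast h4
  rw [h1]
  calc ∑ d ∈ S.image q, ((S.filter fun x => q x = d).card : ℝ) ≤ ∑ _d ∈ S.image q, T :=
        Finset.sum_le_sum h2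
    _ = (S.image q).card * T := by rw [Finset.sum_const, nsmul_eq_mul]
    _ ≤ 8 * T := mul_le_mul_of_nonneg_right h4' hT

end Count

end Pool.Agent.H98.Bose2
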