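import Pool.Agent.H98.Bose2.Sum

/-!
# Crowded cells and the three-body potential

When the three-body potential is at least `c0` for three particles in one cell of side `g`, the
number of pairs in crowded cells of side `2 ^ d * g` is bounded by the three-body potential energy.
-/

set_option autoImplicit false

namespace Pool.Agent.H98.Bose2

open MeasureTheory Set Pool.Agent.H50.Bose

section Sub

variable {κ : Type} [Fintype κ] [DecidableEq κ]

omit [Fintype κ] [DecidableEq κ] in
/-- The number of small cells in a large cell. -/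
theorem subcells_card {g : ℝ} (hg : 0 < g) (X : Cfg κ) (d : ℕ) (b : Fin 3 → ℤ) (s : Finset κ)
    (hs : ∀ i ∈ s, cellOf (2 ^ d * g) (X i) = b) :
    (s.image fun l => cellOf g (X l)).card ≤ 8 ^ d := by
  have h4 : (s.image fun l => cellOf g (X l)) ⊆ Fintype.piFinset fun a =>
      Finset.Ico (2 ^ d * b a) (2 ^ d * (b a + 1)) := by
    intro z hz
    obtain ⟨i, hi, rfl⟩ := Finset.mem_image.mp hz
    rw [Fintype.mem_piFinset]
    intro a
    have h6 : ⌊X i a / (2 ^ d * g)⌋ = b a := congrFun (hs i hi) a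
    rw [Int.floor_eq_iff] at h6
    have h8 : X i a / g = 2 ^ d * (X i a / (2 ^ d * g)) := by
      field_simp
    have h9 : (0 : ℝ) < 2 ^ d := by positivity
    rw [Finset.mem_Ico]
    show 2 ^ d * b a ≤ ⌊X i a / g⌋ ∧ ⌊X i a / g⌋ < 2 ^ d * (b a + 1)
    rw [Int.le_floor, Int.floor_lt, h8]
    push_cast
    constructor
    · exact mul_le_mul_of_nonneg_left h6.1 h9.le
    · exact mul_lt_mul_of_pos_left h6.2 h9
  refine (Finset.card_le_card h4).trans (le_of_eq ?_)
  rw [Fintype.card_piFinset]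
  have h5 : ∀ a : Fin 3, (Finset.Ico (2 ^ d * b a) (2 ^ d * (b a + 1))).card = 2 ^ d := by
    intro a
    rw [Int.card_Ico]
    have : (2 : ℤ) ^ d * (b a + 1) - 2 ^ d * b a = ((2 ^ d : ℕ) : ℤ) := by
      push_cast
      ring
    rw [this, Int.toNat_natCast]
  simp_rw [h5]
  rw [Finset.prod_const, Finset.card_univ, Fintype.card_fin, ← pow_mul, mul_comm, pow_mul]
  norm_num

omit [DecidableEq κ] in
/-- Few particles of a large cell are in small cells with few particles. -/
theorem few_sparse {g : ℝ} (hg : 0 < g) (X : Cfg κ) (d : ℕ) (b : Fin 3 → ℤ) {θ : ℝ}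
    (hθ : 0 ≤ θ) :
    ((Finset.univ.filter fun i => cellOf (2 ^ d * g) (X i) = b ∧
      (occ (fun l => cellOf g (X l)) i : ℝ) < θ).card : ℝ) ≤ 8 ^ d * θ := by
  set q : κ → Fin 3 → ℤ := fun l => cellOf g (X l) with hq
  set s := Finset.univ.filter fun i => cellOf (2 ^ d * g) (X i) = b ∧ (occ q i : ℝ) < θ with hs
  have h1 : (s.card : ℝ) = ∑ z ∈ s.image q, ((s.filter fun x => q x = z).card : ℝ) := by
    rw [Finset.card_eq_sum_card_image q s]
    push_cast
    rfl
  have h2 : ∀ z ∈ s.image q, ((s.filter fun x => q x = z).card : ℝ) ≤ θ := by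
    intro z hz
    obtain ⟨j, hj, rfl⟩ := Finset.mem_image.mp hz
    have hj' := (Finset.mem_filter.mp hj).2
    have : (s.filter fun x => q x = q j).card ≤ occ q j := by
      unfold occ
      apply Finset.card_le_card
      intro x hx
      simp only [Finset.mem_filter, Finset.mem_univ, true_and] at hx ⊢
      exact hx.2
    have h3 : ((s.filter fun x => q x = q j).card : ℝ) ≤ occ q j := by exact_mod_cast this
    linarith [hj'.2]
  have h4 : (s.image q).card ≤ 8 ^ d := subcells_card hg X d b s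
    (fun i hi => ((Finset.mem_filter.mp hi).2).1)
  have h4' : ((s.image q).card : ℝ) ≤ 8 ^ d := by exact_mod_cast h4
  rw [h1]
  calc ∑ z ∈ s.image q, ((s.filter fun x => q x = z).card : ℝ) ≤ ∑ _z ∈ s.image q, θ :=
        Finset.sum_le_sum h2
    _ = (s.image q).card * θ := by rw [Finset.sum_const, nsmul_eq_mul]
    _ ≤ 8 ^ d * θ := mul_le_mul_of_nonneg_right h4' hθ

omit [DecidableEq κ] in
/-- Ordered triples in the small cells of one large cell. -/
theorem cell_triples {g : ℝ} (hg : 0 < g) (X : Cfg κ) (d : ℕ) (b : Fin 3 → ℤ)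
    (hn : 8 * 8 ^ d ≤ (num (fun l => cellOf (2 ^ d * g) (X l)) b : ℝ)) :
    3 / (64 * 64 ^ d) * (num (fun l => cellOf (2 ^ d * g) (X l)) b : ℝ) ^ 3 ≤
      ∑ i ∈ Finset.univ.filter (fun i => cellOf (2 ^ d * g) (X i) = b),
        (((occ (fun l => cellOf g (X l)) i : ℝ) - 1) *
          ((occ (fun l => cellOf g (X l)) i : ℝ) - 2)) := by
  set q : κ → Fin 3 → ℤ := fun l => cellOf g (X l) with hq
  set qJ : κ → Fin 3 → ℤ := fun l => cellOf (2 ^ d * g) (X l) with hqJ
  set n : ℝ := (num qJ b : ℝ) with hnd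
  have h8 : (0 : ℝ) < 8 ^ d := by positivity
  set θ : ℝ := n / (2 * 8 ^ d) with hθ
  have hθ4 : 4 ≤ θ := by
    rw [hθ, le_div_iff₀ (by positivity)]
    linarith
  have h1 := few_sparse hg X d b (by linarith : (0 : ℝ) ≤ θ)
  have h2 : (8 : ℝ) ^ d * θ = n / 2 := by
    rw [hθ]
    field_simp
  rw [h2] at h1
  set S := Finset.univ.filter (fun i => cellOf (2 ^ d * g) (X i) = b) with hS
  set S1 := Finset.univ.filter fun i => cellOf (2 ^ d * g) (X i) = b ∧ (occ q i : ℝ) < θ with hS1
  set S2 := S.filter fun i => θ ≤ (occ q i : ℝ) with hS2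
  have hSn : (S.card : ℝ) = n := rfl
  have hS12 : S1 = S.filter fun i => ¬ θ ≤ (occ q i : ℝ) := by
    ext i
    simp [hS1, hS, Finset.mem_filter, not_le]
  have hcard : S2.card + S1.card = S.card := by
    rw [hS12, hS2, Finset.card_filter_add_card_filter_not]
  have hcard' : (S2.card : ℝ) + S1.card = n := by
    rw [← hSn]
    exact_mod_cast hcard
  have hS2n : n / 2 ≤ S2.card := by linarith
  have hpos : ∀ i, (0 : ℝ) ≤ ((occ q i : ℝ) - 1) * ((occ q i : ℝ) - 2) := by
    intro i
    classical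
    have h := occ_pos q i
    rcases Nat.lt_or_ge (occ q i) 2 with h' | h'
    · have : occ q i = 1 := by omega
      rw [this]
      norm_num
    · have : (2 : ℝ) ≤ occ q i := by exact_mod_cast h'
      nlinarith
  calc 3 / (64 * 64 ^ d) * n ^ 3 = n / 2 * (3 / 8 * θ ^ 2) := by
        rw [hθ]
        have e : (64 : ℝ) ^ d = 8 ^ d * 8 ^ d := by
          rw [← mul_pow]
          norm_num
        rw [e]
        field_simp
        ring
    _ ≤ S2.card * (3 / 8 * θ ^ 2) := by
        apply mul_le_mul_of_nonneg_right hS2n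
        positivity
    _ = ∑ _i ∈ S2, (3 / 8 * θ ^ 2) := by rw [Finset.sum_const, nsmul_eq_mul]
    _ ≤ ∑ i ∈ S2, (((occ q i : ℝ) - 1) * ((occ q i : ℝ) - 2)) := by
        apply Finset.sum_le_sum
        intro i hi
        have h5 : θ ≤ (occ q i : ℝ) := (Finset.mem_filter.mp hi).2
        nlinarith [mul_self_nonneg ((occ q i : ℝ) - θ)]
    _ ≤ _ := by
        apply Finset.sum_le_sum_of_subset_of_nonneg (Finset.filter_subset _ _)
        intro i _ _
        exact hpos i

end Sub

section Main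

variable {κ : Type} [Fintype κ] [LinearOrder κ]
variable {v3 : (Fin 3 → ℝ) → (Fin 3 → ℝ) → (Fin 3 → ℝ) → ℝ}

theorem pot3_ge (hv0 : ∀ x y z, 0 ≤ v3 x y z)
    (hs1 : ∀ x y z, v3 x y z = v3 x z y) (hs2 : ∀ x y z, v3 x y z = v3 y x z)
    {c0 g : ℝ} (hc : ∀ x y z, cellOf g y = cellOf g x → cellOf g z = cellOf g x → c0 ≤ v3 x y z)
    (X : Cfg κ) :
    c0 * ∑ i, (((occ (fun l => cellOf g (X l)) i : ℝ) - 1) *
      ((occ (fun l => cellOf g (X l)) i : ℝ) - 2)) ≤ 6 * pot3 v3 X := by
  set q : κ → Fin 3 → ℤ := fun l => cellOf g (X l) with hq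
  have h1 := distinct_sum (fun i j k => v3 (X i) (X j) (X k)) (fun i j k => hs1 _ _ _)
    (fun i j k => hs2 _ _ _)
  unfold pot3
  rw [← h1, Finset.mul_sum]
  apply Finset.sum_le_sum
  intro i _
  have h2 := count_jk q i c0
  rw [mul_comm c0, ← h2]
  apply Finset.sum_le_sum
  intro j _
  apply Finset.sum_le_sum
  intro k _
  by_cases h : Trip q i j k
  · rw [if_pos h, if_pos h.1]
    exact hc _ _ _ h.2.1 h.2.2
  · rw [if_neg h]
    split_ifs
    · exact hv0 _ _ _
    · exact le_refl _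

theorem crw_le_sum (T r : ℝ) (X : Cfg κ) :
    crw T r X ≤ ∑ b ∈ Finset.univ.image (fun l => cellOf r (X l)),
      (num (fun l => cellOf r (X l)) b : ℝ) *
        (if T < (num (fun l => cellOf r (X l)) b : ℝ) then
          (num (fun l => cellOf r (X l)) b : ℝ) else 0) := by
  set q : κ → Fin 3 → ℤ := fun l => cellOf r (X l) with hq
  rw [← sum_comp_num q (fun b => if T < (num q b : ℝ) then (num q b : ℝ) else 0)]
  have e : crw T r X = ∑ i, ∑ j, if i ≠ j ∧ q i = q j ∧ T < mnum r i j X then (1 : ℝ) else 0 := by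
    unfold crw
    rw [← Finset.sum_product', Finset.univ_product_univ]
    have e : (Finset.univ : Finset κ).offDiag =
        Finset.univ.filter fun p : κ × κ => p.1 ≠ p.2 := by
      ext p
      simp
    rw [e, Finset.sum_filter]
    apply Finset.sum_congr rfl
    intro p _
    by_cases h : p.1 ≠ p.2
    · simp only [h, if_true, true_and, ne_eq, not_false_eq_true, hq]
    · simp only [h, if_false, false_and]
  rw [e]
  apply Finset.sum_le_sum
  intro i _
  have hm : ∀ j, q i = q j → mnum r i j X ≤ num q (q i) := by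
    intro j hj
    unfold mnum mq num
    apply Finset.card_le_card
    intro l hl
    simp only [Finset.mem_filter, Finset.mem_univ, true_and] at hl ⊢
    rw [hj]
    exact hl.2
  by_cases h : T < (num q (q i) : ℝ)
  · rw [if_pos h]
    calc ∑ j, (if i ≠ j ∧ q i = q j ∧ T < mnum r i j X then (1 : ℝ) else 0) ≤
        ∑ j, if q j = q i then (1 : ℝ) else 0 := by
          apply Finset.sum_le_sum
          intro j _
          by_cases h1 : i ≠ j ∧ q i = q j ∧ T < mnum r i j X
          · rw [if_pos h1, if_pos h1.2.1.symm]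
          · rw [if_neg h1]
            split_ifs <;> norm_num
      _ = _ := by
          rw [← Finset.sum_filter, Finset.sum_const, nsmul_eq_mul, mul_one]
          rfl
  · rw [if_neg h]
    apply le_of_eq
    apply Finset.sum_eq_zero
    intro j _
    rw [if_neg]
    rintro ⟨_, h2, h3⟩
    apply h
    have : (mnum r i j X : ℝ) ≤ num q (q i) := by exact_mod_cast hm j h2
    linarith

/-- Pairs in crowded cells cost three-body energy. -/
theorem core_bound (hv0 : ∀ x y z, 0 ≤ v3 x y z)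
    (hs1 : ∀ x y z, v3 x y z = v3 x z y) (hs2 : ∀ x y z, v3 x y z = v3 y x z)
    {c0 g : ℝ} (hg : 0 < g) (hc0 : 0 ≤ c0)
    (hc : ∀ x y z, cellOf g y = cellOf g x → cellOf g z = cellOf g x → c0 ≤ v3 x y z)
    (d : ℕ) {T : ℝ} (hT : 8 * 8 ^ d ≤ T) (X : Cfg κ) :
    c0 * T * crw T (2 ^ d * g) X ≤ 128 * 64 ^ d * pot3 v3 X := by
  set q : κ → Fin 3 → ℤ := fun l => cellOf g (X l) with hq
  set qJ : κ → Fin 3 → ℤ := fun l => cellOf (2 ^ d * g) (X l) with hqJ
  set B := Finset.univ.image qJ with hB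
  have hT0 : 0 ≤ T := le_trans (by positivity) hT
  have h1 := crw_le_sum T (2 ^ d * g) X
  have h2 := pot3_ge hv0 hs1 hs2 hc X
  have hpos : ∀ i, (0 : ℝ) ≤ ((occ q i : ℝ) - 1) * ((occ q i : ℝ) - 2) := by
    intro i
    have h := occ_pos q i
    rcases Nat.lt_or_ge (occ q i) 2 with h' | h'
    · have : occ q i = 1 := by omega
      rw [this]
      norm_num
    · have : (2 : ℝ) ≤ occ q i := by exact_mod_cast h'
      nlinarith
  have h3 : ∑ b ∈ B, (if T < (num qJ b : ℝ) then
      3 / (64 * 64 ^ d) * (num qJ b : ℝ) ^ 3 else 0) ≤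
      ∑ i, (((occ q i : ℝ) - 1) * ((occ q i : ℝ) - 2)) := by
    have e : ∑ i, (((occ q i : ℝ) - 1) * ((occ q i : ℝ) - 2)) =
        ∑ b ∈ B, ∑ i ∈ Finset.univ.filter (fun i => qJ i = b),
          (((occ q i : ℝ) - 1) * ((occ q i : ℝ) - 2)) := by
      rw [Finset.sum_fiberwise_of_maps_to]
      intro i _
      exact Finset.mem_image_of_mem _ (Finset.mem_univ _)
    rw [e]
    apply Finset.sum_le_sum
    intro b _
    split_ifs with h
    · exact cell_triples hg X d b (hT.trans h.le)
    · exact Finset.sum_nonneg fun i _ => hpos i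
  have h4 : T * crw T (2 ^ d * g) X ≤ ∑ b ∈ B, (if T < (num qJ b : ℝ) then
      (num qJ b : ℝ) ^ 3 else 0) := by
    refine (mul_le_mul_of_nonneg_left h1 hT0).trans ?_
    rw [Finset.mul_sum]
    apply Finset.sum_le_sum
    intro b _
    split_ifs with h
    · calc T * ((num qJ b : ℝ) * (num qJ b : ℝ)) ≤
          (num qJ b : ℝ) * ((num qJ b : ℝ) * (num qJ b : ℝ)) := by
            apply mul_le_mul_of_nonneg_right h.le
            positivity
        _ = _ := by ring
    · simp
  have h5 : ∑ b ∈ B, (if T < (num qJ b : ℝ) then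
      3 / (64 * 64 ^ d) * (num qJ b : ℝ) ^ 3 else 0) = 3 / (64 * 64 ^ d) *
      ∑ b ∈ B, (if T < (num qJ b : ℝ) then (num qJ b : ℝ) ^ 3 else 0) := by
    rw [Finset.mul_sum]
    apply Finset.sum_congr rfl
    intro b _
    split_ifs
    · rfl
    · simp
  rw [h5] at h3
  set A := ∑ b ∈ B, (if T < (num qJ b : ℝ) then (num qJ b : ℝ) ^ 3 else 0) with hA
  have h6 : c0 * (3 / (64 * 64 ^ d) * A) ≤ 6 * pot3 v3 X :=
    (mul_le_mul_of_nonneg_left h3 hc0).trans h2
  have h7 : c0 * A ≤ 128 * 64 ^ d * pot3 v3 X := by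
    have h64 : (0 : ℝ) < 64 ^ d := by positivity
    have h8 : c0 * (3 / (64 * 64 ^ d) * A) = c0 * A * (3 / (64 * 64 ^ d)) := by ring
    rw [h8] at h6
    have h9 := mul_le_mul_of_nonneg_right h6 (by positivity : 0 ≤ 64 * (64 : ℝ) ^ d / 3)
    have e : c0 * A * (3 / (64 * 64 ^ d)) * (64 * (64 : ℝ) ^ d / 3) = c0 * A := by
      field_simp
    rw [e] at h9
    linarith
  calc c0 * T * crw T (2 ^ d * g) X = c0 * (T * crw T (2 ^ d * g) X) := by ring
    _ ≤ c0 * A := mul_le_mul_of_nonneg_left h4 hc0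
    _ ≤ _ := h7

end Main

end Pool.Agent.H98.Bose2
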