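import Pool.Agent.H98.Bose2.Scales
import Pool.Agent.H98.Bose2.Classes
import Pool.Agent.H50.Bose.Model
import Pool.Agent.H50.Bose.StablePart

/-!
# Pairs at distance `N^(-β)`, `3/10 ≤ β < 3/4`, for a three-body potential with a core
-/

set_option autoImplicit false

namespace Pool.Agent.H98.Bose2

open MeasureTheory Set Pool.Agent.H50.Bose Filter

/-- A positive power is eventually large. -/
theorem ev_ge (M : ℝ) {e : ℝ} (he : 0 < e) : ∀ᶠ N : ℕ in atTop, M ≤ (N : ℝ) ^ e :=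
  ((tendsto_rpow_atTop he).comp tendsto_natCast_atTop_atTop).eventually (eventually_ge_atTop M)

theorem len_le {x : Fin 3 → ℝ} {r : ℝ} (hr : 0 ≤ r) (h : ∀ a, |x a| ≤ r / 2) : len x ≤ r := by
  unfold len
  rw [Real.sqrt_le_left hr]
  have h1 : ∀ a, x a ^ 2 ≤ (r / 2) ^ 2 := by
    intro a
    have := h a
    exact sq_le_sq' (abs_le.mp this).1 (abs_le.mp this).2
  calc ∑ a, x a ^ 2 ≤ ∑ _a : Fin 3, (r / 2) ^ 2 := Finset.sum_le_sum fun a _ => h1 a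
    _ = 3 * (r / 2) ^ 2 := by simp
    _ ≤ r ^ 2 := by nlinarith [sq_nonneg r]

/-- The bound for pairs, with explicit constants of the core. -/
theorem core_pairs_gen {β : ℝ} (hβ0 : 3 / 10 ≤ β) (hβ : β ≤ 3 / 4)
    {V : (Fin 3 → ℝ) → (Fin 3 → ℝ) → ℝ} (hV : IsThreeBody V) {b R c r C κ m lam : ℝ}
    (hc : 0 < c) (hr : 0 < r) (hcr : ∀ x y, len x ≤ r → len y ≤ r → c ≤ V x y)
    (hC1 : 1 ≤ C) (hC : ∀ k : ℕ, ((k : ℝ) + 2) ^ 6 ≤ C * ((2 : ℝ) ^ k) ^ (1 / 5 : ℝ))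
    (hκ : κ = r / 2) (hm : m = max 1 (4 * R / κ))
    (hlam : lam = 1 / (196608 * m ^ 2 * κ ^ 2 * (b + 1))) (hb : 0 ≤ b)
    (ev3 : ∀ᶠ N : ℕ in atTop, 4 * (2048 * b / (c * lam)) * C ≤ (N : ℝ) ^ (3 - 4 * β)) :
    ∀ᶠ N : ℕ in atTop, ∀ ψ : Cfg (Fin N) → ℂ,
      ContDiff ℝ 1 ψ → HasCompactSupport ψ →
      b * (N : ℝ) ^ (3 * β - 1) * (∫ X, pairsAt (R * (N : ℝ) ^ (-β)) X * ‖ψ X‖ ^ 2) ≤
        1 / 4 * (∫ X, tot (v3s V ((N : ℝ) ^ (1 / 2 : ℝ))) ψ X) +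
          256 * b * (N : ℝ) ^ (3 * (3 / 10 : ℝ) - 1) *
            ∫ X, pairsAt (2 * m * κ * (N : ℝ) ^ (-(3 / 10 : ℝ))) X * ‖ψ X‖ ^ 2 := by
  obtain ⟨BV, hBV⟩ := hV.bdd
  have hBV0 : 0 ≤ BV := (hV.nonneg 0 0).trans (hBV 0 0)
  have hκ0 : 0 < κ := by
    rw [hκ]
    positivity
  have hm1 : 1 ≤ m := by
    rw [hm]
    exact le_max_left _ _
  have hm0 : 0 < m := by linarith
  have hmR : 4 * R ≤ m * κ := by
    have : 4 * R / κ ≤ m := by
      rw [hm]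
      exact le_max_right _ _
    rwa [div_le_iff₀ hκ0] at this
  have hl0 : 0 < lam := by
    rw [hlam]
    positivity
  have ev1 := ev_ge (8 * C / lam) (show (0 : ℝ) < 1 - β by linarith)
  have ev2 := ev_ge (512 * m ^ 3 * C / lam) (show (0 : ℝ) < 1 / 100 by norm_num)
  have ev4 := ev_ge (4 * (2048 * b / (c * lam)) * (4 * m) ^ 6 * C)
    (show (0 : ℝ) < 51 / 100 by norm_num)
  filter_upwards [ev1, ev2, ev3, ev4, eventually_ge_atTop 1] with N h1 h2 h3 h4 hN ψ hψ hs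
  have hN0 : (0 : ℝ) < N := by exact_mod_cast hN
  have hN1 : (1 : ℝ) ≤ N := by exact_mod_cast hN
  set n : ℝ := (N : ℝ) with hn
  set h : ℝ := n ^ (1 / 2 : ℝ) with hh
  set a : ℝ := n ^ β with ha
  set w : ℝ := n ^ (3 / 10 : ℝ) with hw
  set q : ℝ := n ^ (9 / 100 : ℝ) with hq
  have hh0 : 0 < h := Real.rpow_pos_of_pos hN0 _
  have ha0 : 0 < a := Real.rpow_pos_of_pos hN0 _
  have hw0 : 0 < w := Real.rpow_pos_of_pos hN0 _
  have hq0 : 0 < q := Real.rpow_pos_of_pos hN0 _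
  have hhn : n = h ^ 2 := (sq_half hN).symm
  have hwa : w ≤ a := Real.rpow_le_rpow_of_exponent_le hN1 hβ0
  have hvm := measurable_v3s hV.measurable h
  have hpow : ∀ (x : ℝ) (k : ℕ), (n ^ x) ^ k = n ^ (x * k) := fun x k => by
    rw [Real.rpow_mul hN0.le, Real.rpow_natCast]
  have key := scale_pairs (v3 := v3s V h) (n := n) (h := h) (a := a) (w := w) (q := q) (κ := κ)
    (m := m) (b := b) (c := c) (C := C) (lam := lam) (R := R) (B := h ^ 2 * BV) hvm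
    (fun x y z => mul_nonneg (sq_nonneg _) (hV.nonneg _ _)) (v3s_symm hV h) (v3s_symm' hV h)
    (fun u x y z => by
      unfold v3s
      rw [add_sub_add_right_eq_sub, add_sub_add_right_eq_sub])
    (by positivity) (fun x y z => mul_le_mul_of_nonneg_left (hBV _ _) (sq_nonneg _)) hψ hs
    hh0 hhn hw0 hwa hκ0 hm1 hmR hb hc hC1 hlam
    (fun x y z h5 h6 => by
      have e : ∀ y : Fin 3 → ℝ, (∀ i, |x i - y i| ≤ κ / h) → len (h • (x - y)) ≤ r := by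
        intro y h7
        apply len_le hr.le
        intro i
        rw [Pi.smul_apply, Pi.sub_apply, smul_eq_mul, abs_mul, abs_of_pos hh0]
        have := h7 i
        rw [le_div_iff₀ hh0] at this
        rw [hκ] at this
        linarith
      unfold v3s
      rw [hhn]
      exact mul_le_mul_of_nonneg_left (hcr _ _ (e y h5) (e z h6)) (by positivity))
    (fun k => (hC k).trans (mul_le_mul_of_nonneg_left (by
      have h2k : (1 : ℝ) ≤ 2 ^ k := one_le_pow₀ (by norm_num)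
      calc ((2 : ℝ) ^ k) ^ (1 / 5 : ℝ) ≤ ((2 : ℝ) ^ k) ^ (1 : ℝ) :=
            Real.rpow_le_rpow_of_exponent_le h2k (by norm_num)
        _ = 2 ^ k := Real.rpow_one _) (by linarith)))
    (fun k hk => (hC k).trans (mul_le_mul_of_nonneg_left (by
      have h5 : a / w = n ^ (β - 3 / 10) := by
        rw [ha, hw, ← Real.rpow_sub hN0]
      have h6 : a / w ≤ n ^ (9 / 20 : ℝ) := by
        rw [h5]
        exact Real.rpow_le_rpow_of_exponent_le hN1 (by linarith)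
      calc ((2 : ℝ) ^ k) ^ (1 / 5 : ℝ) ≤ (n ^ (9 / 20 : ℝ)) ^ (1 / 5 : ℝ) :=
            Real.rpow_le_rpow (by positivity) (hk.trans h6) (by norm_num)
        _ = q := by
          rw [← Real.rpow_mul hN0.le, hq]
          norm_num) (by linarith)))
    (by
      have e : n / a = n ^ (1 - β) := by
        rw [ha, Real.rpow_sub hN0, Real.rpow_one]
      rw [e]
      rw [div_le_iff₀ hl0] at h1
      linarith)
    (by
      have e : w ^ 2 = n ^ (1 / 100 : ℝ) * (q * h) := by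
        rw [hw, hq, hh, hpow, ← Real.rpow_add hN0, ← Real.rpow_add hN0]
        norm_num
      rw [e]
      rw [div_le_iff₀ hl0] at h2
      calc 512 * m ^ 3 * (C * q) * h = (512 * m ^ 3 * C) * (q * h) := by ring
        _ ≤ (n ^ (1 / 100 : ℝ) * lam) * (q * h) := mul_le_mul_of_nonneg_right h2 (by positivity)
        _ = _ := by ring)
    (by
      have e : n ^ 3 = n ^ (3 - 4 * β) * a ^ 4 := by
        rw [ha, hpow, ← Real.rpow_add hN0]
        have : 3 - 4 * β + β * ((4 : ℕ) : ℝ) = ((3 : ℕ) : ℝ) := by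
          push_cast
          ring
        rw [this, Real.rpow_natCast]
      rw [e]
      exact mul_le_mul_of_nonneg_right h3 (by positivity))
    (by
      have e : w ^ 2 = n ^ (51 / 100 : ℝ) * q := by
        rw [hw, hq, hpow, ← Real.rpow_add hN0]
        norm_num
      rw [e]
      calc 4 * (2048 * b / (c * lam)) * (4 * m) ^ 6 * (C * q) =
          (4 * (2048 * b / (c * lam)) * (4 * m) ^ 6 * C) * q := by ring
        _ ≤ _ := mul_le_mul_of_nonneg_right h4 hq0.le)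
  have e1 : n ^ (3 * β - 1) = a ^ 3 / n := by
    rw [Real.rpow_sub hN0, Real.rpow_one, ha, hpow]
    congr 2
    push_cast
    ring
  have e2 : n ^ (3 * (3 / 10 : ℝ) - 1) = w ^ 3 / n := by
    rw [Real.rpow_sub hN0, Real.rpow_one, hw, hpow]
    norm_num
  have e3 : R * n ^ (-β) = R / a := by
    rw [Real.rpow_neg hN0.le, div_eq_mul_inv]
  have e4 : 2 * m * κ * n ^ (-(3 / 10 : ℝ)) = 2 * m * κ / w := by
    rw [Real.rpow_neg hN0.le]
    exact (div_eq_mul_inv _ _).symm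
  rw [e1, e2, e3, e4]
  exact key

theorem core_pairs {β : ℝ} (hβ0 : 3 / 10 ≤ β) (hβ : β < 3 / 4)
    {V : (Fin 3 → ℝ) → (Fin 3 → ℝ) → ℝ} (hV : IsThreeBody V) (hV1 : HasCore V) {b R : ℝ}
    (hb : 0 ≤ b) :
    ∃ R' : ℝ, 0 ≤ R' ∧ ∀ᶠ N : ℕ in atTop, ∀ ψ : Cfg (Fin N) → ℂ,
      ContDiff ℝ 1 ψ → HasCompactSupport ψ →
      b * (N : ℝ) ^ (3 * β - 1) * (∫ X, pairsAt (R * (N : ℝ) ^ (-β)) X * ‖ψ X‖ ^ 2) ≤
        1 / 4 * (∫ X, tot (v3s V ((N : ℝ) ^ (1 / 2 : ℝ))) ψ X) +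
          256 * b * (N : ℝ) ^ (3 * (3 / 10 : ℝ) - 1) *
            ∫ X, pairsAt (R' * (N : ℝ) ^ (-(3 / 10 : ℝ))) X * ‖ψ X‖ ^ 2 := by
  obtain ⟨c, hc, r, hr, hcr⟩ := hV1
  obtain ⟨C, hC1, hC⟩ := poly_bound
  have hm1 : 1 ≤ max 1 (4 * R / (r / 2)) := le_max_left _ _
  refine ⟨2 * max 1 (4 * R / (r / 2)) * (r / 2), by positivity, ?_⟩
  exact core_pairs_gen hβ0 hβ.le hV hc hr hcr hC1 hC rfl rfl rfl hb
    (ev_ge _ (by linarith))

/-- Weak coupling at `β = 3/4`. -/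
theorem core_pairs_weak {V : (Fin 3 → ℝ) → (Fin 3 → ℝ) → ℝ} (hV : IsThreeBody V)
    (hV1 : HasCore V) (R : ℝ) :
    ∃ b1 : ℝ, 0 < b1 ∧ ∀ b : ℝ, 0 ≤ b → b ≤ b1 → 
    ∃ R' : ℝ, 0 ≤ R' ∧ ∀ᶠ N : ℕ in atTop, ∀ ψ : Cfg (Fin N) → ℂ,
      ContDiff ℝ 1 ψ → HasCompactSupport ψ →
      b * (N : ℝ) ^ (3 * (3 / 4 : ℝ) - 1) *
          (∫ X, pairsAt (R * (N : ℝ) ^ (-(3 / 4 : ℝ))) X * ‖ψ X‖ ^ 2) ≤
        1 / 4 * (∫ X, tot (v3s V ((N : ℝ) ^ (1 / 2 : ℝ))) ψ X) +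
          256 * b * (N : ℝ) ^ (3 * (3 / 10 : ℝ) - 1) *
            ∫ X, pairsAt (R' * (N : ℝ) ^ (-(3 / 10 : ℝ))) X * ‖ψ X‖ ^ 2 := by
  obtain ⟨c, hc, r, hr, hcr⟩ := hV1
  obtain ⟨C, hC1, hC⟩ := poly_bound
  set κ : ℝ := r / 2 with hκ
  have hκ0 : 0 < κ := by positivity
  set m : ℝ := max 1 (4 * R / κ) with hm
  have hm1 : 1 ≤ m := le_max_left _ _
  have hm0 : 0 < m := by linarith
  have hC0 : 0 < C := by linarith
  refine ⟨min 1 (c / (4 * 2048 * 393216 * m ^ 2 * κ ^ 2 * C)), by positivity, ?_⟩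
  intro b hb hb1
  have hb2 : b ≤ 1 := hb1.trans (min_le_left _ _)
  have hb3 : b ≤ c / (4 * 2048 * 393216 * m ^ 2 * κ ^ 2 * C) := hb1.trans (min_le_right _ _)
  refine ⟨2 * m * κ, by positivity, ?_⟩
  refine core_pairs_gen (by norm_num) le_rfl hV hc hr hcr hC1 hC hκ hm rfl hb ?_
  refine Eventually.of_forall fun N => ?_
  have e : (3 : ℝ) - 4 * (3 / 4) = 0 := by norm_num
  rw [e, Real.rpow_zero]
  rw [le_div_iff₀ (by positivity)] at hb3
  have h1 : 4 * (2048 * b / (c * (1 / (196608 * m ^ 2 * κ ^ 2 * (b + 1))))) * C =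
      b * (4 * 2048 * 196608 * m ^ 2 * κ ^ 2 * C) * (b + 1) / c := by
    field_simp
  rw [h1, div_le_one hc]
  calc b * (4 * 2048 * 196608 * m ^ 2 * κ ^ 2 * C) * (b + 1) ≤
      b * (4 * 2048 * 196608 * m ^ 2 * κ ^ 2 * C) * 2 := by
        apply mul_le_mul_of_nonneg_left (by linarith) (by positivity)
    _ = b * (4 * 2048 * 393216 * m ^ 2 * κ ^ 2 * C) := by ring
    _ ≤ c := hb3

end Pool.Agent.H98.Bose2
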