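import Pool.Agent.H98.Bose2.Third
import Pool.Agent.H58.PC.Hollow
import Pool.Agent.H50.Bose3.Unst
import Pool.Agent.H50.Bose.Unstable

/-!
# Thresholds for the stability of the second kind
-/

set_option autoImplicit false

namespace Pool.Agent.H98.Bose2

open MeasureTheory Set Pool.Agent.H50.Bose

/-- A three-body potential with a core, at the critical exponent `3/4`. -/
theorem core_critical {U : (Fin 3 → ℝ) → ℝ} (hU : IsTrap U)
    {V : (Fin 3 → ℝ) → (Fin 3 → ℝ) → ℝ} (hV : IsThreeBody V) (hV1 : HasCore V)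
    {W : (Fin 3 → ℝ) → ℝ} (hW : IsPair W) (hne : ¬ ∀ᵐ x, W x = 0) :
    ∃ w₁ w₂ : ℝ, 0 < w₁ ∧ (∀ w, 0 ≤ w → w ≤ w₁ → Stable (3 / 4) U V (fun x => w * W x)) ∧
      ∀ w, w₂ ≤ w → ¬ Stable (3 / 4) U V (fun x => w * W x) := by
  obtain ⟨R, hR0, hR⟩ := hW.exists_supp
  obtain ⟨B, hB⟩ := hW.bdd
  have hB0 : 0 ≤ B := (abs_nonneg _).trans (hB 0)
  obtain ⟨b, hb, h⟩ := stable_core_weak hV hV1 (2 * R)
  obtain ⟨w₂, _, h2⟩ := Pool.Agent.H50.Bose3.unstable_large (β := 3 / 4) le_rfl (by norm_num)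
    hU hV hW hne
  refine ⟨b / (B + 1), w₂, by positivity, ?_, h2⟩
  intro w hw0 hw1
  rw [le_div_iff₀ (by positivity)] at hw1
  refine h U hU _ (Pool.Agent.H50.Bose3.isPair_smul hW hw0) ?_ ?_
  · intro x
    rw [abs_mul, abs_of_nonneg hw0]
    calc w * |W x| ≤ w * (B + 1) := by
          apply mul_le_mul_of_nonneg_left _ hw0
          have := hB x
          linarith
      _ ≤ b := hw1
  · intro x hx
    have hx' : W x ≠ 0 := fun h0 => hx (by rw [h0, mul_zero])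
    exact len_le (by positivity) (fun a => by
      have := hR x hx' a
      linarith)

theorem thresholds (U : (Fin 3 → ℝ) → ℝ) (hU : IsTrap U) :
    (∀ β : ℝ, 0 < β → β ≤ 1 →
      ((∀ (V : (Fin 3 → ℝ) → (Fin 3 → ℝ) → ℝ) (W : (Fin 3 → ℝ) → ℝ),
        IsThreeBody V → IsPair W → Stable β U V W) ↔ β < 1 / 3)) ∧
    ∀ V : (Fin 3 → ℝ) → (Fin 3 → ℝ) → ℝ, IsThreeBody V →
      (∀ W : (Fin 3 → ℝ) → ℝ, IsPair W → (¬ ∀ᵐ x, W x = 0) →
        ∀ β : ℝ, 3 / 4 < β → β ≤ 1 → ¬ Stable β U V W) ∧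
      (HasCore V → ∀ W : (Fin 3 → ℝ) → ℝ, IsPair W →
        (∀ β : ℝ, 0 < β → β < 3 / 4 → Stable β U V W) ∧
        ((¬ ∀ᵐ x, W x = 0) → ∃ w₁ w₂ : ℝ, 0 < w₁ ∧
          (∀ w, 0 ≤ w → w ≤ w₁ → Stable (3 / 4) U V (fun x => w * W x)) ∧
          ∀ w, w₂ ≤ w → ¬ Stable (3 / 4) U V (fun x => w * W x))) ∧
      (IsHollow V → ∀ β : ℝ, 0 < β → β ≤ 1 →
        ((∀ W : (Fin 3 → ℝ) → ℝ, IsPair W → Stable β U V W) ↔ β < 1 / 3)) := by
  refine ⟨?_, ?_⟩
  · intro β hβ0 hβ1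
    constructor
    · intro h
      by_contra hlt
      obtain ⟨V, W, hV, hW, hns⟩ := unstable_of_ge (not_lt.mp hlt) hU
      exact hns (h V W hV hW)
    · intro h V W hV hW
      exact stable_of_lt hβ0 h hU hV hW
  · intro V hV
    refine ⟨?_, ?_, ?_⟩
    · intro W hW hne β hβ hβ1
      exact Pool.Agent.H50.Bose3.unstable_every hβ hβ1 hU hV hW hne
    · intro hV1 W hW
      exact ⟨fun β hβ0 hβ => stable_core hβ0 hβ hU hV hV1 hW,
        fun hne => core_critical hU hV hV1 hW hne⟩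
    · intro hh β hβ0 hβ1
      constructor
      · intro h
        by_contra hlt
        obtain ⟨W, hW, hns⟩ := Pool.Agent.H58.PC.unstable_hollow (not_lt.mp hlt) hU hV hh
        exact hns (h W hW)
      · intro h W hW
        exact stable_of_lt hβ0 h hU hV hW

end Pool.Agent.H98.Bose2
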