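import Pool.Agent.H50.Bose.ScaleSum

/-!
# One doubling step for one particle

The mass of a function in a small cube is at most about one eighth of its mass in the cube of
double side, up to the gradient.
-/

set_option autoImplicit false

namespace Pool.Agent.H98.Bose2

open MeasureTheory Set Pool.Agent.H50.Bose

section Cube

variable {ι : Type} [Fintype ι] [DecidableEq ι]

omit [DecidableEq ι] in
theorem volume_boxI_one (hι : Fintype.card ι = 1) (c : Fin 3 → ℝ) {r : ℝ} (hr : 0 ≤ r) :
    volume (boxI ι c r) = ENNReal.ofReal (r ^ 3) := by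
  rw [volume_boxI, hι, pow_one, ← ENNReal.ofReal_pow hr]

/-- One doubling step for a function of one variable. -/
theorem cube_step (hι : Fintype.card ι = 1) {u : Cfg ι → ℂ} (hu : ContDiff ℝ 1 u)
    {c c' : Fin 3 → ℝ} {r : ℝ} (hr : 0 < r) (hsub : boxI ι c r ⊆ boxI ι c' (2 * r))
    {δ : ℝ} (hδ : 0 < δ) :
    ∫⁻ X in boxI ι c r, ENNReal.ofReal (‖u X‖ ^ 2) ≤
      ENNReal.ofReal ((1 + δ) / 8) * (∫⁻ X in boxI ι c' (2 * r), ENNReal.ofReal (‖u X‖ ^ 2)) +
      ENNReal.ofReal ((1 + 1 / δ) * (96 * r ^ 2)) *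
        ∫⁻ X in boxI ι c' (2 * r), ENNReal.ofReal (grad2 u X) := by
  set A := boxI ι c r with hA
  set C := boxI ι c' (2 * r) with hC
  have hAm : MeasurableSet A := measurableSet_boxI _ _
  have hCm : MeasurableSet C := measurableSet_boxI _ _
  have hum : Measurable u := hu.continuous.measurable
  have hvA : volume A = ENNReal.ofReal (r ^ 3) := volume_boxI_one hι _ hr.le
  have hvC : volume C = ENNReal.ofReal (8 * r ^ 3) := by
    rw [hC, volume_boxI_one hι _ (by positivity)]
    congr 1
    ring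
  have h2 := poincare_double (convex_boxI c' (2 * r)) hCm (2 * r)
    (fun X hX Y hY i a => boxI_diff hX hY i a) hu
  rw [← hC, hvC, hι] at h2
  set S := ∫⁻ X in C, ENNReal.ofReal (‖u X‖ ^ 2) with hS
  set D := ∫⁻ X in C, ENNReal.ofReal (grad2 u X) with hD
  set T := ∫⁻ X in A, ENNReal.ofReal (‖u X‖ ^ 2) with hT
  have h1 : volume C * T ≤ ENNReal.ofReal (1 + δ) * volume A * S +
      ENNReal.ofReal (1 + 1 / δ) * ∫⁻ x in C, ∫⁻ y in C, ENNReal.ofReal (‖u x - u y‖ ^ 2) := by
    have e1 : volume C * T = ∫⁻ x in A, ∫⁻ _y in C, ENNReal.ofReal (‖u x‖ ^ 2) := by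
      have : ∀ x, ∫⁻ _y in C, ENNReal.ofReal (‖u x‖ ^ 2) =
          volume C * ENNReal.ofReal (‖u x‖ ^ 2) := by
        intro x
        rw [lintegral_const, Measure.restrict_apply_univ, mul_comm]
      simp_rw [this]
      rw [lintegral_const_mul _ (by fun_prop)]
    rw [e1]
    calc ∫⁻ x in A, ∫⁻ _y in C, ENNReal.ofReal (‖u x‖ ^ 2)
        ≤ ∫⁻ x in A, ∫⁻ y in C, (ENNReal.ofReal (1 + δ) * ENNReal.ofReal (‖u y‖ ^ 2) +
            ENNReal.ofReal (1 + 1 / δ) * ENNReal.ofReal (‖u x - u y‖ ^ 2)) := by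
          apply lintegral_mono
          intro x
          apply lintegral_mono
          intro y
          show ENNReal.ofReal (‖u x‖ ^ 2) ≤ ENNReal.ofReal (1 + δ) * ENNReal.ofReal (‖u y‖ ^ 2) +
            ENNReal.ofReal (1 + 1 / δ) * ENNReal.ofReal (‖u x - u y‖ ^ 2)
          rw [← ENNReal.ofReal_mul (by positivity), ← ENNReal.ofReal_mul (by positivity),
            ← ENNReal.ofReal_add (by positivity) (by positivity)]
          exact ENNReal.ofReal_le_ofReal (sq_split _ _ hδ)
      _ = ∫⁻ x in A, (ENNReal.ofReal (1 + δ) * S + ENNReal.ofReal (1 + 1 / δ) *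
            ∫⁻ y in C, ENNReal.ofReal (‖u x - u y‖ ^ 2)) := by
          apply lintegral_congr
          intro x
          rw [lintegral_add_left (by fun_prop), lintegral_const_mul _ (by fun_prop),
            lintegral_const_mul _ (by fun_prop)]
      _ = ENNReal.ofReal (1 + δ) * volume A * S + ENNReal.ofReal (1 + 1 / δ) *
            ∫⁻ x in A, ∫⁻ y in C, ENNReal.ofReal (‖u x - u y‖ ^ 2) := by
          rw [lintegral_add_left (by fun_prop), lintegral_const, Measure.restrict_apply_univ,
            lintegral_const_mul' _ _ ENNReal.ofReal_ne_top]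
          ring
      _ ≤ _ := by
          gcongr
  rw [hvA, hvC] at h1
  have h3 : ENNReal.ofReal (8 * r ^ 3) * T ≤ ENNReal.ofReal (8 * r ^ 3) *
      (ENNReal.ofReal ((1 + δ) / 8) * S + ENNReal.ofReal ((1 + 1 / δ) * (96 * r ^ 2)) * D) := by
    refine h1.trans ?_
    rw [mul_add, ← mul_assoc, ← mul_assoc, ← ENNReal.ofReal_mul (by positivity),
      ← ENNReal.ofReal_mul (by positivity), ← ENNReal.ofReal_mul (by positivity)]
    apply add_le_add
    · apply le_of_eq
      congr 2
      ring
    · calc _ ≤ ENNReal.ofReal (1 + 1 / δ) * (ENNReal.ofReal (3 * ((1 : ℕ) : ℝ) * (2 * r) ^ 2 *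
          2 ^ (1 * 3)) * ENNReal.ofReal (8 * r ^ 3) * D) := by gcongr
        _ = _ := by
          rw [← mul_assoc, ← mul_assoc, ← ENNReal.ofReal_mul (by positivity),
            ← ENNReal.ofReal_mul (by positivity)]
          congr 2
          push_cast
          ring
  have h8 : ENNReal.ofReal (8 * r ^ 3) ≠ 0 := by
    rw [Ne, ENNReal.ofReal_eq_zero, not_le]
    positivity
  exact (ENNReal.mul_le_mul_iff_right h8 ENNReal.ofReal_ne_top).mp h3

end Cube

section Particle

variable {κ : Type} [Fintype κ] [DecidableEq κ]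

/-- Indicator of two particles being in one cell. -/
noncomputable def same (r : ℝ) (i j : κ) (X : Cfg κ) : ENNReal :=
  if cellOf r (X i) = cellOf r (X j) then 1 else 0

omit [Fintype κ] [DecidableEq κ] in
theorem measurable_same (r : ℝ) (i j : κ) : Measurable (same r i j : Cfg κ → ENNReal) := by
  have hc : Measurable (cellOf r) := by
    unfold cellOf
    fun_prop
  apply Measurable.ite _ measurable_const measurable_const
  exact measurableSet_eq_fun (hc.comp (measurable_pi_apply i)) (hc.comp (measurable_pi_apply j))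

theorem floor_two_mul {x r : ℝ} (hr : 0 < r) : ⌊x / (2 * r)⌋ = ⌊x / r⌋ / 2 := by
  have h1 := Int.floor_le (x / r)
  have h2 := Int.lt_floor_add_one (x / r)
  have e : x / (2 * r) = x / r / 2 := by field_simp
  rw [e, Int.floor_eq_iff]
  set m := ⌊x / r⌋ with hm
  have h3 : m / 2 * 2 ≤ m := Int.ediv_mul_le m (by norm_num)
  have h4 : m < (m / 2 + 1) * 2 := Int.lt_ediv_add_one_mul_self m (by norm_num)
  have h5 : ((m / 2 : ℤ) : ℝ) * 2 ≤ m := by exact_mod_cast h3
  have h6 : (m : ℝ) + 1 ≤ (((m / 2 : ℤ) : ℝ) + 1) * 2 := by exact_mod_cast h4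
  constructor <;> linarith

theorem cell_parent {r : ℝ} (hr : 0 < r) {x y : Fin 3 → ℝ} (h : cellOf r x = cellOf r y) :
    cellOf (2 * r) x = cellOf (2 * r) y := by
  funext a
  have h1 : ⌊x a / r⌋ = ⌊y a / r⌋ := congrFun h a
  show ⌊x a / (2 * r)⌋ = ⌊y a / (2 * r)⌋
  rw [floor_two_mul hr, floor_two_mul hr, h1]

/-- One doubling step for particle `i`, with a weight which does not depend on it. -/
theorem particle_step {ψ : Cfg κ → ℂ} (hψ : ContDiff ℝ 1 ψ) {i j : κ} (hij : i ≠ j)
    {w : Cfg κ → ENNReal} (hw : Measurable w)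
    (hwi : ∀ X Y : Cfg κ, (∀ l, l ≠ i → X l = Y l) → w X = w Y) {r : ℝ} (hr : 0 < r)
    {δ : ℝ} (hδ : 0 < δ) :
    ∫⁻ X, w X * same r i j X * ENNReal.ofReal (‖ψ X‖ ^ 2) ≤
      ENNReal.ofReal ((1 + δ) / 8) *
        (∫⁻ X, w X * same (2 * r) i j X * ENNReal.ofReal (‖ψ X‖ ^ 2)) +
      ENNReal.ofReal ((1 + 1 / δ) * (96 * r ^ 2)) *
        ∫⁻ X, w X * same (2 * r) i j X * ENNReal.ofReal (gradp ψ i X) := by
  have hψc := hψ.continuous
  have hgc := continuous_gradp hψ i
  have hs1 := measurable_same (κ := κ) r i j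
  have hs2 := measurable_same (κ := κ) (2 * r) i j
  have hm1 : Measurable fun X : Cfg κ => w X * same r i j X * ENNReal.ofReal (‖ψ X‖ ^ 2) := by
    fun_prop
  have hm2 : Measurable fun X : Cfg κ =>
      w X * same (2 * r) i j X * ENNReal.ofReal (‖ψ X‖ ^ 2) := by
    fun_prop
  have hm3 : Measurable fun X : Cfg κ =>
      w X * same (2 * r) i j X * ENNReal.ofReal (gradp ψ i X) := by
    fun_prop
  rw [← lintegral_const_mul _ hm2, ← lintegral_const_mul _ hm3,
    ← lintegral_add_left (hm2.const_mul _)]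
  apply lintegral_le_of_lmarginal_le {i} hm1 ((hm2.const_mul _).add (hm3.const_mul _))
  intro x
  show ∫⁻ y : (∀ _ : ↥({i} : Finset κ), Fin 3 → ℝ), _ ∂_ ≤
    ∫⁻ y : (∀ _ : ↥({i} : Finset κ), Fin 3 → ℝ), _ ∂_
  rw [← volume_pi]
  set s : Finset κ := {i} with hs
  have his : i ∈ s := by simp [hs]
  have hjs : j ∉ s := by
    rw [hs, Finset.mem_singleton]
    exact fun h => hij h.symm
  set i0 : ↥s := ⟨i, his⟩ with hi0
  have huniq : ∀ l : ↥s, l = i0 := by
    intro l
    apply Subtype.ext
    exact Finset.mem_singleton.mp l.2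
  have hcard : Fintype.card ↥s = 1 := by
    rw [Fintype.card_coe, hs, Finset.card_singleton]
  set u : Cfg ↥s → ℂ := fun y => ψ (Function.updateFinset x s y) with hu
  have huc : ContDiff ℝ 1 u := contDiff_slice hψ x s
  have hXi : ∀ y : Cfg ↥s, Function.updateFinset x s y i = y i0 := by
    intro y
    rw [Function.updateFinset, dif_pos his]
  have hXj : ∀ y : Cfg ↥s, Function.updateFinset x s y j = x j := by
    intro y
    rw [Function.updateFinset, dif_neg hjs]
  have hwx : ∀ y : Cfg ↥s, w (Function.updateFinset x s y) = w x := by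
    intro y
    apply hwi
    intro l hl
    rw [Function.updateFinset, dif_neg]
    rw [hs, Finset.mem_singleton]
    exact hl
  have hsame : ∀ (ρ : ℝ), 0 < ρ → ∀ y : Cfg ↥s, same ρ i j (Function.updateFinset x s y) =
      (boxI ↥s (cornerOf ρ (cellOf ρ (x j))) ρ).indicator 1 y := by
    intro ρ hρ y
    have h1 : y ∈ boxI ↥s (cornerOf ρ (cellOf ρ (x j))) ρ ↔ cellOf ρ (y i0) = cellOf ρ (x j) := by
      rw [mem_boxI]
      constructor
      · intro h
        exact (mem_box_cell hρ _ _).mp (h i0)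
      · intro h l
        rw [huniq l]
        exact (mem_box_cell hρ _ _).mpr h
    unfold same
    rw [hXi, hXj]
    by_cases h : cellOf ρ (y i0) = cellOf ρ (x j)
    · rw [if_pos h, Set.indicator_of_mem (h1.mpr h)]
      rfl
    · rw [if_neg h, Set.indicator_of_notMem (fun h2 => h (h1.mp h2))]
  have hsub : boxI ↥s (cornerOf r (cellOf r (x j))) r ⊆
      boxI ↥s (cornerOf (2 * r) (cellOf (2 * r) (x j))) (2 * r) := by
    intro y hy
    rw [mem_boxI] at *
    intro l
    have h1 := (mem_box_cell hr _ _).mp (hy l)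
    exact (mem_box_cell (by positivity) _ _).mpr (cell_parent hr h1)
  have h1 := cube_step hcard huc hr hsub hδ
  set A := boxI ↥s (cornerOf r (cellOf r (x j))) r with hA
  set C := boxI ↥s (cornerOf (2 * r) (cellOf (2 * r) (x j))) (2 * r) with hC
  have hAm : MeasurableSet A := measurableSet_boxI _ _
  have hCm : MeasurableSet C := measurableSet_boxI _ _
  have hg : ∀ y : Cfg ↥s, gradp ψ i (Function.updateFinset x s y) = grad2 u y := by
    intro y
    rw [hu, grad2_slice hψ]
    exact (Finset.sum_singleton (fun l => gradp ψ l (Function.updateFinset x s y)) i).symm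
  have e1 : ∀ y : Cfg ↥s, w (Function.updateFinset x s y) *
      same r i j (Function.updateFinset x s y) *
      ENNReal.ofReal (‖ψ (Function.updateFinset x s y)‖ ^ 2) =
      w x * A.indicator (fun y => ENNReal.ofReal (‖u y‖ ^ 2)) y := by
    intro y
    rw [hwx, hsame r hr, mul_assoc]
    congr 1
    by_cases h : y ∈ A
    · rw [Set.indicator_of_mem h, Set.indicator_of_mem h]
      simp [hu]
    · rw [Set.indicator_of_notMem h, Set.indicator_of_notMem h, zero_mul]
  have e2 : ∀ y : Cfg ↥s, w (Function.updateFinset x s y) *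
      same (2 * r) i j (Function.updateFinset x s y) *
      ENNReal.ofReal (‖ψ (Function.updateFinset x s y)‖ ^ 2) =
      w x * C.indicator (fun y => ENNReal.ofReal (‖u y‖ ^ 2)) y := by
    intro y
    rw [hwx, hsame (2 * r) (by positivity), mul_assoc]
    congr 1
    by_cases h : y ∈ C
    · rw [Set.indicator_of_mem h, Set.indicator_of_mem h]
      simp [hu]
    · rw [Set.indicator_of_notMem h, Set.indicator_of_notMem h, zero_mul]
  have e3 : ∀ y : Cfg ↥s, w (Function.updateFinset x s y) *
      same (2 * r) i j (Function.updateFinset x s y) *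
      ENNReal.ofReal (gradp ψ i (Function.updateFinset x s y)) =
      w x * C.indicator (fun y => ENNReal.ofReal (grad2 u y)) y := by
    intro y
    rw [hwx, hsame (2 * r) (by positivity), mul_assoc, hg]
    congr 1
    by_cases h : y ∈ C
    · rw [Set.indicator_of_mem h, Set.indicator_of_mem h]
      simp
    · rw [Set.indicator_of_notMem h, Set.indicator_of_notMem h, zero_mul]
  simp only [Pi.add_apply, e1, e2, e3]
  have hum : Measurable u := huc.continuous.measurable
  have hgm : Measurable (grad2 u) := (continuous_grad2 huc).measurable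
  have hf1 : Measurable fun y : Cfg ↥s => A.indicator (fun y => ENNReal.ofReal (‖u y‖ ^ 2)) y :=
    (by fun_prop : Measurable fun y : Cfg ↥s => ENNReal.ofReal (‖u y‖ ^ 2)).indicator hAm
  have hf2 : Measurable fun y : Cfg ↥s => C.indicator (fun y => ENNReal.ofReal (‖u y‖ ^ 2)) y :=
    (by fun_prop : Measurable fun y : Cfg ↥s => ENNReal.ofReal (‖u y‖ ^ 2)).indicator hCm
  have hf3 : Measurable fun y : Cfg ↥s => C.indicator (fun y => ENNReal.ofReal (grad2 u y)) y :=
    (by fun_prop : Measurable fun y : Cfg ↥s => ENNReal.ofReal (grad2 u y)).indicator hCm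
  rw [lintegral_const_mul _ hf1, lintegral_add_left ((hf2.const_mul _).const_mul _),
    lintegral_const_mul _ (hf2.const_mul _), lintegral_const_mul _ hf2,
    lintegral_const_mul _ (hf3.const_mul _), lintegral_const_mul _ hf3,
    lintegral_indicator hAm, lintegral_indicator hCm, lintegral_indicator hCm]
  calc w x * ∫⁻ y in A, ENNReal.ofReal (‖u y‖ ^ 2) ≤ w x *
      (ENNReal.ofReal ((1 + δ) / 8) * (∫⁻ X in C, ENNReal.ofReal (‖u X‖ ^ 2)) +
      ENNReal.ofReal ((1 + 1 / δ) * (96 * r ^ 2)) *
        ∫⁻ X in C, ENNReal.ofReal (grad2 u X)) := by gcongr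
    _ = _ := by ring

end Particle

end Pool.Agent.H98.Bose2
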