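import Pool.Agent.H98.Bose2.Shift

/-!
# The choice of the parameters
-/

set_option autoImplicit false

namespace Pool.Agent.H98.Bose2

open MeasureTheory Set Pool.Agent.H50.Bose

section Series

/-- The losses in the doubling steps. -/
noncomputable def dl (k : ℕ) : ℝ := 1 / (((k : ℝ) + 1) * ((k : ℝ) + 3))

/-- The product of the factors of the doubling steps. -/
noncomputable def pk (k : ℕ) : ℝ := 2 * ((k : ℝ) + 1) / (((k : ℝ) + 2) * 8 ^ k)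

theorem dl_pos (k : ℕ) : 0 < dl k := by
  unfold dl
  positivity

theorem pk_zero : pk 0 = 1 := by
  unfold pk
  norm_num

theorem pk_nonneg (k : ℕ) : 0 ≤ pk k := by
  unfold pk
  positivity

theorem pk_succ (k : ℕ) : pk (k + 1) = pk k * ((1 + dl k) / 8) := by
  unfold pk dl
  push_cast
  rw [pow_succ]
  field_simp
  ring

theorem pk_le (k : ℕ) : pk k ≤ 2 / 8 ^ k := by
  unfold pk
  rw [div_le_div_iff₀ (by positivity) (by positivity)]
  have : (0 : ℝ) < 8 ^ k := by positivity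
  nlinarith

theorem one_add_dl (k : ℕ) : 1 + 1 / dl k = ((k : ℝ) + 2) ^ 2 := by
  unfold dl
  field_simp
  ring

theorem sum_sq_le (K : ℕ) : ∑ k ∈ Finset.range K, 1 / ((k : ℝ) + 2) ^ 2 ≤ 1 := by
  have h : ∀ K : ℕ, ∑ k ∈ Finset.range K, 1 / ((k : ℝ) + 2) ^ 2 ≤ 1 - 1 / ((K : ℝ) + 1) := by
    intro K
    induction K with
    | zero => simp
    | succ K ih =>
      rw [Finset.sum_range_succ]
      have h1 : 1 / ((K : ℝ) + 2) ^ 2 ≤ 1 / ((K : ℝ) + 1) - 1 / ((K : ℝ) + 2) := by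
        rw [div_sub_div _ _ (by positivity) (by positivity),
          div_le_div_iff₀ (by positivity) (by positivity)]
        nlinarith [(Nat.cast_nonneg K : (0 : ℝ) ≤ K)]
      have e : (((K + 1 : ℕ) : ℝ) + 1) = (K : ℝ) + 2 := by
        push_cast
        ring
      rw [e]
      linarith
  have h1 := h K
  have : 0 ≤ 1 / ((K : ℝ) + 1) := by positivity
  linarith

theorem poly_bound : ∃ C : ℝ, 1 ≤ C ∧ ∀ k : ℕ,
    ((k : ℝ) + 2) ^ 6 ≤ C * ((2 : ℝ) ^ k) ^ (1 / 5 : ℝ) := by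
  set r : ℝ := (2 : ℝ) ^ (1 / 5 : ℝ) with hr
  have hr1 : 1 < r := Real.one_lt_rpow (by norm_num) (by norm_num)
  have hr0 : 0 < r := by linarith
  have h1 := tendsto_pow_const_div_const_pow_of_one_lt 6 hr1
  obtain ⟨M, hM⟩ := h1.bddAbove_range
  have hM' : ∀ n : ℕ, (n : ℝ) ^ 6 / r ^ n ≤ M := fun n => hM ⟨n, rfl⟩
  refine ⟨max 1 (M * r ^ 2), le_max_left _ _, ?_⟩
  intro k
  have h2 := hM' (k + 2)
  rw [div_le_iff₀ (by positivity)] at h2
  push_cast at h2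
  have e : ((2 : ℝ) ^ k) ^ (1 / 5 : ℝ) = r ^ k := by
    rw [hr, ← Real.rpow_natCast, ← Real.rpow_natCast, ← Real.rpow_mul (by norm_num),
      ← Real.rpow_mul (by norm_num), mul_comm]
  rw [e]
  calc ((k : ℝ) + 2) ^ 6 ≤ M * r ^ (k + 2) := h2
    _ = M * r ^ 2 * r ^ k := by ring
    _ ≤ _ := by
      apply mul_le_mul_of_nonneg_right (le_max_right _ _)
      positivity

end Series

section Algebra

/-- The crowding thresholds. -/
noncomputable def thr (lam n a : ℝ) (k : ℕ) : ℝ :=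
  lam * (n / a) * 2 ^ k / (((k : ℝ) + 1) * ((k : ℝ) + 2) ^ 3)

theorem thr_pos {lam n a : ℝ} (hl : 0 < lam) (hn : 0 < n) (ha : 0 < a) (k : ℕ) :
    0 < thr lam n a k := by
  unfold thr
  positivity

/-- The kinetic term. -/
theorem kin_term {lam n a s0 : ℝ} (k : ℕ) :
    pk k * ((1 + 1 / dl k) * (96 * (2 ^ k * s0) ^ 2)) * (8 * thr lam n a k) =
      1536 * lam * s0 ^ 2 * (n / a) * (1 / ((k : ℝ) + 2) ^ 2) := by
  rw [one_add_dl]
  unfold pk thr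
  have e : (8 : ℝ) ^ k = 2 ^ k * 2 ^ k * 2 ^ k := by
    rw [← mul_pow, ← mul_pow]
    norm_num
  rw [e]
  field_simp
  ring

theorem kin_sum {lam n a s0 : ℝ} (hl : 0 < lam) (hn : 0 < n) (ha : 0 < a) (K : ℕ) :
    ∑ k ∈ Finset.range K, pk k * ((1 + 1 / dl k) * (96 * (2 ^ k * s0) ^ 2)) *
      (8 * thr lam n a k) ≤ 1536 * lam * s0 ^ 2 * (n / a) := by
  simp_rw [kin_term]
  rw [← Finset.mul_sum]
  calc _ ≤ 1536 * lam * s0 ^ 2 * (n / a) * 1 := by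
        apply mul_le_mul_of_nonneg_left (sum_sq_le K)
        positivity
    _ = _ := mul_one _

/-- The thresholds are large enough. -/
theorem thr_large {lam n a h w C m q : ℝ} (hl : 0 < lam) (ha : 0 < a) (hh : 0 < h)
    (hw : 0 < w) (hn : n = h ^ 2) (hm : 0 < m)
    {k d : ℕ} (hk : (2 : ℝ) ^ k ≤ a / w) (hpk : ((k : ℝ) + 2) ^ 6 ≤ C * 2 ^ k)
    (hpq : ((k : ℝ) + 2) ^ 6 ≤ C * q)
    (hd : (2 : ℝ) ^ d ≤ max 1 (4 * m * 2 ^ k * h / a))
    (E1 : 8 * C ≤ lam * (n / a)) (E2 : 512 * m ^ 3 * (C * q) * h ≤ lam * w ^ 2) :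
    8 * 8 ^ d ≤ thr lam n a k := by
  have hn0 : 0 < n := by
    rw [hn]
    positivity
  have hk0 : (0 : ℝ) ≤ k := Nat.cast_nonneg k
  set P : ℝ := ((k : ℝ) + 1) * ((k : ℝ) + 2) ^ 3 with hP
  have hP0 : 0 < P := by positivity
  have hP6 : P ≤ ((k : ℝ) + 2) ^ 6 := by
    have h2 : (1 : ℝ) ≤ (k : ℝ) + 2 := by linarith
    calc P ≤ ((k : ℝ) + 2) * ((k : ℝ) + 2) ^ 3 := by
          apply mul_le_mul_of_nonneg_right _ (by positivity)
          linarith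
      _ = ((k : ℝ) + 2) ^ 4 := by ring
      _ ≤ _ := pow_le_pow_right₀ h2 (by norm_num)
  have h2k : (0 : ℝ) < 2 ^ k := by positivity
  have h8d : (8 : ℝ) ^ d = (2 ^ d) ^ 3 := by
    rw [← pow_mul, mul_comm, pow_mul]
    norm_num
  unfold thr
  rw [le_div_iff₀ hP0, h8d]
  rcases le_total (4 * m * 2 ^ k * h / a) 1 with hc | hc
  · rw [max_eq_left hc] at hd
    have h3 : ((2 : ℝ) ^ d) ^ 3 ≤ 1 := pow_le_one₀ (by positivity) hd
    calc 8 * (2 ^ d) ^ 3 * P ≤ 8 * 1 * (C * 2 ^ k) := by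
          gcongr
          exact hP6.trans hpk
      _ = 8 * C * 2 ^ k := by ring
      _ ≤ lam * (n / a) * 2 ^ k := mul_le_mul_of_nonneg_right E1 h2k.le
  · rw [max_eq_right hc] at hd
    have h3 : ((2 : ℝ) ^ d) ^ 3 ≤ (4 * m * 2 ^ k * h / a) ^ 3 :=
      pow_le_pow_left₀ (by positivity) hd 3
    have h4 : (2 : ℝ) ^ k * w ≤ a := (le_div_iff₀ hw).mp hk
    have h5 : ((2 : ℝ) ^ k) ^ 2 * w ^ 2 ≤ a ^ 2 := by
      rw [← mul_pow]
      exact pow_le_pow_left₀ (by positivity) h4 2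
    have h6 : 512 * m ^ 3 * P * h ≤ lam * w ^ 2 := by
      refine le_trans ?_ E2
      gcongr
      exact hP6.trans hpq
    have h7 : (512 * m ^ 3 * P * h) * (((2 : ℝ) ^ k) ^ 2) ≤ lam * a ^ 2 := by
      calc (512 * m ^ 3 * P * h) * (((2 : ℝ) ^ k) ^ 2) ≤ lam * w ^ 2 * (((2 : ℝ) ^ k) ^ 2) :=
            mul_le_mul_of_nonneg_right h6 (by positivity)
        _ = lam * (((2 : ℝ) ^ k) ^ 2 * w ^ 2) := by ring
        _ ≤ lam * a ^ 2 := mul_le_mul_of_nonneg_left h5 hl.le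
    calc 8 * (2 ^ d) ^ 3 * P ≤ 8 * (4 * m * 2 ^ k * h / a) ^ 3 * P := by gcongr
      _ = (512 * m ^ 3 * P * h) * (((2 : ℝ) ^ k) ^ 2) * (2 ^ k * h ^ 2 / a ^ 3) := by
          field_simp
          ring
      _ ≤ lam * a ^ 2 * (2 ^ k * h ^ 2 / a ^ 3) := mul_le_mul_of_nonneg_right h7 (by positivity)
      _ = lam * (n / a) * 2 ^ k := by
          rw [hn]
          field_simp

/-- The three-body term. -/
theorem body_term {lam n a h w C m q b c : ℝ} (hl : 0 < lam) (ha : 0 < a) (hh : 0 < h)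
    (hw : 0 < w) (hn : n = h ^ 2) (hC : 1 ≤ C) (hm : 0 < m) (hb : 0 ≤ b) (hc : 0 < c)
    {k d : ℕ} (hk : (2 : ℝ) ^ k ≤ a / w) (hpk : ((k : ℝ) + 2) ^ 6 ≤ C * 2 ^ k)
    (hpq : ((k : ℝ) + 2) ^ 6 ≤ C * q)
    (hd : (2 : ℝ) ^ d ≤ max 1 (4 * m * 2 ^ k * h / a))
    (E3 : 4 * (2048 * b / (c * lam)) * C * a ^ 4 ≤ n ^ 3)
    (E4 : 4 * (2048 * b / (c * lam)) * (4 * m) ^ 6 * (C * q) ≤ w ^ 2) :
    b * (a ^ 3 / n) * 8 * (pk k * (128 * 64 ^ d / (n * c * thr lam n a k))) ≤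
      1 / 4 * (1 / ((k : ℝ) + 2) ^ 2) := by
  have hn0 : 0 < n := by
    rw [hn]
    positivity
  have hk0 : (0 : ℝ) ≤ k := Nat.cast_nonneg k
  set P : ℝ := ((k : ℝ) + 1) * ((k : ℝ) + 2) ^ 3 with hP
  have hP0 : 0 < P := by positivity
  have hP6 : P * ((k : ℝ) + 2) ^ 2 ≤ ((k : ℝ) + 2) ^ 6 := by
    calc P * ((k : ℝ) + 2) ^ 2 ≤ ((k : ℝ) + 2) * ((k : ℝ) + 2) ^ 3 * ((k : ℝ) + 2) ^ 2 := by
          apply mul_le_mul_of_nonneg_right _ (by positivity)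
          apply mul_le_mul_of_nonneg_right _ (by positivity)
          linarith
      _ = _ := by ring
  have h2k : (0 : ℝ) < 2 ^ k := by positivity
  have h2k1 : (1 : ℝ) ≤ 2 ^ k := one_le_pow₀ (by norm_num)
  have h64 : (64 : ℝ) ^ d = (2 ^ d) ^ 6 := by
    rw [← pow_mul, mul_comm, pow_mul]
    norm_num
  have h8k : (8 : ℝ) ^ k = (2 ^ k) ^ 3 := by
    rw [← pow_mul, mul_comm, pow_mul]
    norm_num
  set M : ℝ := 2048 * b / (c * lam) with hM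
  have hM0 : 0 ≤ M := by positivity
  have hT := thr_pos hl hn0 ha k
  have h1 : b * (a ^ 3 / n) * 8 * (pk k * (128 * 64 ^ d / (n * c * thr lam n a k))) ≤
      M * (a ^ 4 / n ^ 3) * ((2 ^ d) ^ 6) * P / (2 ^ k) ^ 4 := by
    calc _ ≤ b * (a ^ 3 / n) * 8 * (2 / 8 ^ k * (128 * 64 ^ d / (n * c * thr lam n a k))) := by
          gcongr
          exact pk_le k
      _ = _ := by
          rw [h64, h8k, hM]
          unfold thr
          rw [← hP]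
          field_simp
          ring
  refine h1.trans ?_
  rw [mul_one_div, le_div_iff₀ (by positivity)]
  rcases le_total (4 * m * 2 ^ k * h / a) 1 with hcc | hcc
  · rw [max_eq_left hcc] at hd
    have h3 : ((2 : ℝ) ^ d) ^ 6 ≤ 1 := pow_le_one₀ (by positivity) hd
    have h4 : (2 : ℝ) ^ k ≤ (2 ^ k) ^ 4 := le_self_pow₀ h2k1 (by norm_num)
    calc M * (a ^ 4 / n ^ 3) * ((2 ^ d) ^ 6) * P / (2 ^ k) ^ 4 * ((k : ℝ) + 2) ^ 2
        = M * (a ^ 4 / n ^ 3) * ((2 ^ d) ^ 6) / (2 ^ k) ^ 4 * (P * ((k : ℝ) + 2) ^ 2) := by ring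
      _ ≤ M * (a ^ 4 / n ^ 3) * 1 / (2 ^ k) ^ 4 * (P * ((k : ℝ) + 2) ^ 2) := by
          gcongr
      _ ≤ M * (a ^ 4 / n ^ 3) * 1 / (2 ^ k) ^ 4 * (C * (2 ^ k) ^ 4) :=
          mul_le_mul_of_nonneg_left
            (hP6.trans (hpk.trans (mul_le_mul_of_nonneg_left h4 (by linarith)))) (by positivity)
      _ = M * C * a ^ 4 / n ^ 3 := by
          field_simp
      _ ≤ 1 / 4 := by
          rw [div_le_div_iff₀ (by positivity) (by norm_num)]
          linarith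
  · rw [max_eq_right hcc] at hd
    have h3 : ((2 : ℝ) ^ d) ^ 6 ≤ (4 * m * 2 ^ k * h / a) ^ 6 :=
      pow_le_pow_left₀ (by positivity) hd 6
    have h4 : (2 : ℝ) ^ k * w ≤ a := (le_div_iff₀ hw).mp hk
    have h5 : ((2 : ℝ) ^ k) ^ 2 * w ^ 2 ≤ a ^ 2 := by
      rw [← mul_pow]
      exact pow_le_pow_left₀ (by positivity) h4 2
    have h6 : ((2 : ℝ) ^ k) ^ 2 / a ^ 2 ≤ 1 / w ^ 2 := by
      rw [div_le_div_iff₀ (by positivity) (by positivity), one_mul]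
      exact h5
    calc M * (a ^ 4 / n ^ 3) * ((2 ^ d) ^ 6) * P / (2 ^ k) ^ 4 * ((k : ℝ) + 2) ^ 2
        = M * (a ^ 4 / n ^ 3) * ((2 ^ d) ^ 6) / (2 ^ k) ^ 4 * (P * ((k : ℝ) + 2) ^ 2) := by ring
      _ ≤ M * (a ^ 4 / n ^ 3) * (4 * m * 2 ^ k * h / a) ^ 6 / (2 ^ k) ^ 4 *
            (P * ((k : ℝ) + 2) ^ 2) := by
          gcongr
      _ ≤ M * (a ^ 4 / n ^ 3) * (4 * m * 2 ^ k * h / a) ^ 6 / (2 ^ k) ^ 4 * (C * q) :=
          mul_le_mul_of_nonneg_left (hP6.trans hpq) (by positivity)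
      _ = M * (4 * m) ^ 6 * (C * q) * (((2 : ℝ) ^ k) ^ 2 / a ^ 2) := by
          rw [hn]
          field_simp
      _ ≤ M * (4 * m) ^ 6 * (C * q) * (1 / w ^ 2) := by
          apply mul_le_mul_of_nonneg_left h6
          have : 0 ≤ C * q := le_trans (by positivity) hpq
          positivity
      _ ≤ 1 / 4 := by
          rw [mul_one_div, div_le_div_iff₀ (by positivity) (by norm_num)]
          linarith

end Algebra

end Pool.Agent.H98.Bose2
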