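import Pool.Agent.H98.Bose2.Param

/-!
# Pairs at short distance, for a three-body potential with a core
-/

set_option autoImplicit false

namespace Pool.Agent.H98.Bose2

open MeasureTheory Set Pool.Agent.H50.Bose

variable {N : ℕ} {v3 : (Fin 3 → ℝ) → (Fin 3 → ℝ) → (Fin 3 → ℝ) → ℝ}

theorem pairsAt_mono {ρ ρ' : ℝ} (h : ρ ≤ ρ') (X : Cfg (Fin N)) : pairsAt ρ X ≤ pairsAt ρ' X := by
  unfold pairsAt
  apply Finset.sum_le_sum
  intro i _
  apply Finset.sum_le_sum
  intro j _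
  by_cases h1 : i < j ∧ ∀ a, |X i a - X j a| ≤ ρ
  · rw [if_pos h1, if_pos ⟨h1.1, fun a => (h1.2 a).trans h⟩]
  · rw [if_neg h1]
    split_ifs <;> norm_num

theorem same_cell {g : ℝ} (hg : 0 < g) {x y : Fin 3 → ℝ} (h : cellOf g y = cellOf g x)
    (a : Fin 3) : |x a - y a| ≤ g := by
  have h1 := congrFun h a
  unfold cellOf at h1
  have h2 := Int.floor_le (x a / g)
  have h3 := Int.lt_floor_add_one (x a / g)
  have h4 := Int.floor_le (y a / g)
  have h5 := Int.lt_floor_add_one (y a / g)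
  rw [h1] at h4 h5
  have h6 : |x a / g - y a / g| ≤ 1 := by
    rw [abs_le]
    constructor <;> linarith
  rw [← sub_div, abs_div, abs_of_pos hg, div_le_one hg] at h6
  exact h6

theorem scale_pairs (hvm : Measurable fun p : (Fin 3 → ℝ) × (Fin 3 → ℝ) × (Fin 3 → ℝ) =>
      v3 p.1 p.2.1 p.2.2) (hv0 : ∀ x y z, 0 ≤ v3 x y z)
    (hs1 : ∀ x y z, v3 x y z = v3 x z y) (hs2 : ∀ x y z, v3 x y z = v3 y x z)
    (hvt : ∀ u x y z, v3 (x + u) (y + u) (z + u) = v3 x y z)
    {B : ℝ} (hB : 0 ≤ B) (hvB : ∀ x y z, v3 x y z ≤ B)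
    {ψ : Cfg (Fin N) → ℂ} (hψ : ContDiff ℝ 1 ψ) (hs : HasCompactSupport ψ)
    {n h a w q κ m b c C lam R : ℝ} (hh : 0 < h) (hn : n = h ^ 2) (hw : 0 < w) (hwa : w ≤ a)
    (hκ : 0 < κ) (hm : 1 ≤ m) (hR : 4 * R ≤ m * κ) (hb : 0 ≤ b) (hc : 0 < c)
    (hC : 1 ≤ C) (hlam : lam = 1 / (196608 * m ^ 2 * κ ^ 2 * (b + 1)))
    (hcore : ∀ x y z : Fin 3 → ℝ, (∀ i, |x i - y i| ≤ κ / h) → (∀ i, |x i - z i| ≤ κ / h) →
      n * c ≤ v3 x y z)
    (hpk : ∀ k : ℕ, ((k : ℝ) + 2) ^ 6 ≤ C * 2 ^ k)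
    (hpq : ∀ k : ℕ, (2 : ℝ) ^ k ≤ a / w → ((k : ℝ) + 2) ^ 6 ≤ C * q)
    (E1 : 8 * C ≤ lam * (n / a)) (E2 : 512 * m ^ 3 * (C * q) * h ≤ lam * w ^ 2)
    (E3 : 4 * (2048 * b / (c * lam)) * C * a ^ 4 ≤ n ^ 3)
    (E4 : 4 * (2048 * b / (c * lam)) * (4 * m) ^ 6 * (C * q) ≤ w ^ 2) :
    b * (a ^ 3 / n) * (∫ X, pairsAt (R / a) X * ‖ψ X‖ ^ 2) ≤
      1 / 4 * (∫ X, tot v3 ψ X) +
        256 * b * (w ^ 3 / n) * ∫ X, pairsAt (2 * m * κ / w) X * ‖ψ X‖ ^ 2 := by
  have ha : 0 < a := by linarith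
  have hn0 : 0 < n := by
    rw [hn]
    positivity
  have hm0 : 0 < m := by linarith
  have hl0 : 0 < lam := by
    rw [hlam]
    positivity
  set z := max a h with hz
  have hza : a ≤ z := le_max_left _ _
  have hzh : h ≤ z := le_max_right _ _
  have hz0 : 0 < z := by linarith
  set r0 := κ / z with hr0
  have hr00 : 0 < r0 := by positivity
  obtain ⟨kh, hkh1, hkh2⟩ := exists_nat_pow_near (show (1 : ℝ) ≤ z / h by
    rw [le_div_iff₀ hh]
    linarith) (show (1 : ℝ) < 2 by norm_num)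
  obtain ⟨k1, hk11, hk12⟩ := exists_nat_pow_near (show (1 : ℝ) ≤ m * z / a by
    rw [le_div_iff₀ ha]
    nlinarith) (show (1 : ℝ) < 2 by norm_num)
  obtain ⟨K, hK1, hK2⟩ := exists_nat_pow_near (show (1 : ℝ) ≤ a / w by
    rw [le_div_iff₀ hw]
    linarith) (show (1 : ℝ) < 2 by norm_num)
  set k0 := k1 + 1 with hk0
  have hk02 : (2 : ℝ) ^ k0 ≤ 2 * (m * z / a) := by
    rw [hk0, pow_succ]
    linarith
  set s0 := 2 ^ k0 * r0 with hs0
  have hs00 : 0 < s0 := by positivity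
  have hs01 : m * κ / a ≤ s0 := by
    calc m * κ / a = (m * z / a) * r0 := by
          rw [hr0]
          field_simp
      _ ≤ _ := mul_le_mul_of_nonneg_right hk12.le hr00.le
  have hs02 : s0 ≤ 2 * (m * κ / a) := by
    calc s0 ≤ 2 * (m * z / a) * r0 := mul_le_mul_of_nonneg_right hk02 hr00.le
      _ = _ := by
        rw [hr0]
        field_simp
  set j : ℕ → ℕ := fun k => min (k0 + k) kh with hj
  set g : ℕ → ℝ := fun k => 2 ^ j k * r0 with hg
  set d : ℕ → ℕ := fun k => k0 + k - j k with hd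
  have hg0 : ∀ k, 0 < g k := fun k => by
    simp only [hg]
    positivity
  have hgk : ∀ k, g k ≤ κ / h := by
    intro k
    have h1 : (2 : ℝ) ^ j k ≤ 2 ^ kh := pow_le_pow_right₀ (by norm_num) (min_le_right _ _)
    calc g k ≤ (z / h) * r0 := mul_le_mul_of_nonneg_right (h1.trans hkh1) hr00.le
      _ = κ / h := by
        rw [hr0]
        field_simp
  have hgd : ∀ k, 2 ^ k * s0 = 2 ^ d k * g k := by
    intro k
    simp only [hs0, hg]
    have h1 : (2 : ℝ) ^ k * 2 ^ k0 = 2 ^ d k * 2 ^ j k := by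
      rw [← pow_add, ← pow_add]
      congr 1
      have : j k ≤ k0 + k := min_le_left _ _
      simp only [hd]
      omega
    rw [← mul_assoc, h1, mul_assoc]
  have hdk : ∀ k, (2 : ℝ) ^ d k ≤ max 1 (4 * m * 2 ^ k * h / a) := by
    intro k
    rcases le_total (k0 + k) kh with h1 | h1
    · have h2 : d k = 0 := by
        simp only [hd, hj]
        rw [min_eq_left h1]
        omega
      rw [h2, pow_zero]
      exact le_max_left _ _
    · refine le_trans ?_ (le_max_right _ _)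
      have h2 : d k + kh = k0 + k := by
        simp only [hd, hj]
        rw [min_eq_right h1]
        omega
      have h3 : (2 : ℝ) ^ d k * 2 ^ kh = 2 ^ k0 * 2 ^ k := by
        rw [← pow_add, ← pow_add, h2]
      have h4 : z / h ≤ 2 * 2 ^ kh := by
        rw [pow_succ] at hkh2
        linarith
      have h5 : (2 : ℝ) ^ d k * (z / h) ≤ 2 * (2 * (m * z / a) * 2 ^ k) := by
        calc (2 : ℝ) ^ d k * (z / h) ≤ 2 ^ d k * (2 * 2 ^ kh) := by gcongr
          _ = 2 * (2 ^ k0 * 2 ^ k) := by rw [← h3]; ring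
          _ ≤ _ := by gcongr
      have h6 : 2 * (2 * (m * z / a) * 2 ^ k) = (4 * m * 2 ^ k * h / a) * (z / h) := by
        field_simp
        ring
      rw [h6] at h5
      exact le_of_mul_le_mul_right h5 (by positivity)
  have hkw : ∀ k < K, (2 : ℝ) ^ k ≤ a / w := fun k hk =>
    le_trans (pow_le_pow_right₀ (by norm_num) hk.le) hK1
  have hmain := star_pairs hvm hv0 hs1 hs2 hvt hB hvB hψ hs (T := thr lam n a) hs00
    (δ := dl) (p := pk) dl_pos pk_zero pk_nonneg pk_succ K (c0 := n * c) (by positivity) g d hg0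
    hgd (fun k x y z' h1 h2 => hcore x y z'
      (fun i => (same_cell (hg0 k) h1 i).trans (hgk k))
      (fun i => (same_cell (hg0 k) h2 i).trans (hgk k)))
    (fun k => thr_pos hl0 hn0 ha k)
    (fun k hk => thr_large hl0 ha hh hw hn hm0 (hkw k hk) (hpk k) (hpq k (hkw k hk)) (hdk k) E1 E2)
    (ρ := R / a) (by
      have : R / a ≤ (m * κ / a) / 4 := by
        rw [div_div, div_le_div_iff₀ ha (by positivity)]
        nlinarith
      linarith)
  set P3 := ∫ X, pot3 v3 X * ‖ψ X‖ ^ 2 with hP3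
  set G2 := ∫ X, grad2 ψ X with hG2
  have hP30 : 0 ≤ P3 := integral_nonneg fun X => mul_nonneg (pot3_nonneg hv0 X) (sq_nonneg _)
  have hG20 : 0 ≤ G2 := integral_nonneg fun X => grad2_nonneg _ _
  have hPi : ∀ ρ : ℝ, Integrable fun X : Cfg (Fin N) => pairsAt ρ X * ‖ψ X‖ ^ 2 := fun ρ =>
    integrable_bdd hψ.continuous hs (measurable_pairsAt ρ) (B := (N : ℝ) ^ 2)
      (fun X => by
        rw [abs_of_nonneg (pairsAt_nonneg ρ X)]
        exact pairsAt_le ρ X)
  have hti : Integrable fun X : Cfg (Fin N) => tot v3 ψ X :=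
    integrable_tot hvm hv0 hB hvB hψ hs
  have hgi := integrable_grad2 hψ hs
  have htot : ∫ X, tot v3 ψ X = G2 + P3 := by
    have h1 : Integrable fun X : Cfg (Fin N) => pot3 v3 X * ‖ψ X‖ ^ 2 := by
      have h2 := hti.sub hgi
      refine h2.congr (Filter.Eventually.of_forall fun X => ?_)
      simp [tot]
    rw [hG2, hP3, ← integral_add hgi h1]
    rfl
  have hbody : b * (a ^ 3 / n) * 8 *
      (∑ k ∈ Finset.range K, pk k * (128 * 64 ^ d k / (n * c * thr lam n a k))) ≤ 1 / 4 := by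
    rw [Finset.mul_sum]
    calc _ ≤ ∑ k ∈ Finset.range K, 1 / 4 * (1 / ((k : ℝ) + 2) ^ 2) := by
          apply Finset.sum_le_sum
          intro k hk
          have hk' : k < K := Finset.mem_range.mp hk
          exact body_term hl0 ha hh hw hn hC hm0 hb hc (hkw k hk') (hpk k) (hpq k (hkw k hk'))
            (hdk k) E3 E4
      _ = 1 / 4 * ∑ k ∈ Finset.range K, 1 / ((k : ℝ) + 2) ^ 2 := by rw [Finset.mul_sum]
      _ ≤ 1 / 4 * 1 := mul_le_mul_of_nonneg_left (sum_sq_le K) (by norm_num)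
      _ = _ := mul_one _
  have hkin : b * (a ^ 3 / n) * 8 * (∑ k ∈ Finset.range K,
      pk k * ((1 + 1 / dl k) * (96 * (2 ^ k * s0) ^ 2)) * (8 * thr lam n a k)) ≤ 1 / 4 := by
    calc _ ≤ b * (a ^ 3 / n) * 8 * (1536 * lam * (2 * (m * κ / a)) ^ 2 * (n / a)) := by
          apply mul_le_mul_of_nonneg_left _ (by positivity)
          refine (kin_sum hl0 hn0 ha K).trans ?_
          gcongr
      _ = b / (b + 1) * (1 / 4) := by
          rw [hlam]
          field_simp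
          ring
      _ ≤ 1 * (1 / 4) := by
          apply mul_le_mul_of_nonneg_right _ (by norm_num)
          rw [div_le_one (by positivity)]
          linarith
      _ = _ := one_mul _
  have hpK : b * (a ^ 3 / n) * 8 * (2 * pk K) ≤ 256 * b * (w ^ 3 / n) := by
    have h1 : a / (2 * w) ≤ 2 ^ K := by
      rw [div_le_iff₀ (by positivity)]
      rw [div_lt_iff₀ hw, pow_succ] at hK2
      linarith
    have h2 : a ^ 3 / (8 * w ^ 3) ≤ 8 ^ K := by
      have h3 : (8 : ℝ) ^ K = (2 ^ K) ^ 3 := by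
        rw [← pow_mul, mul_comm, pow_mul]
        norm_num
      rw [h3]
      calc a ^ 3 / (8 * w ^ 3) = (a / (2 * w)) ^ 3 := by
            rw [div_pow, mul_pow]
            norm_num
        _ ≤ _ := pow_le_pow_left₀ (by positivity) h1 3
    have h3 : pk K ≤ 16 * w ^ 3 / a ^ 3 := by
      refine (pk_le K).trans ?_
      rw [div_le_div_iff₀ (by positivity) (by positivity)]
      rw [div_le_iff₀ (by positivity)] at h2
      linarith
    calc b * (a ^ 3 / n) * 8 * (2 * pk K) ≤ b * (a ^ 3 / n) * 8 * (2 * (16 * w ^ 3 / a ^ 3)) := by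
          gcongr
      _ = _ := by
          field_simp
          ring
  have hpm : ∫ X, pairsAt (2 ^ K * s0) X * ‖ψ X‖ ^ 2 ≤
      ∫ X, pairsAt (2 * m * κ / w) X * ‖ψ X‖ ^ 2 := by
    apply integral_mono (hPi _) (hPi _)
    intro X
    refine mul_le_mul_of_nonneg_right (pairsAt_mono ?_ X) (sq_nonneg _)
    calc (2 : ℝ) ^ K * s0 ≤ (a / w) * (2 * (m * κ / a)) := by gcongr
      _ = _ := by
        field_simp
  set Q1 := ∫ X, pairsAt (2 ^ K * s0) X * ‖ψ X‖ ^ 2 with hQ1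
  set Q2 := ∫ X, pairsAt (2 * m * κ / w) X * ‖ψ X‖ ^ 2 with hQ2
  have hQ10 : 0 ≤ Q1 := integral_nonneg fun X => mul_nonneg (pairsAt_nonneg _ _) (sq_nonneg _)
  rw [htot]
  calc _ ≤ b * (a ^ 3 / n) * _ := mul_le_mul_of_nonneg_left hmain (by positivity)
    _ = (b * (a ^ 3 / n) * 8 *
      (∑ k ∈ Finset.range K, pk k * (128 * 64 ^ d k / (n * c * thr lam n a k)))) * P3 +
      (b * (a ^ 3 / n) * 8 * (∑ k ∈ Finset.range K,
      pk k * ((1 + 1 / dl k) * (96 * (2 ^ k * s0) ^ 2)) * (8 * thr lam n a k))) * G2 +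
      (b * (a ^ 3 / n) * 8 * (2 * pk K)) * Q1 := by ring
    _ ≤ 1 / 4 * P3 + 1 / 4 * G2 + 256 * b * (w ^ 3 / n) * Q2 := by
      have h1 := mul_le_mul_of_nonneg_right hbody hP30
      have h2 := mul_le_mul_of_nonneg_right hkin hG20
      have h3 : (b * (a ^ 3 / n) * 8 * (2 * pk K)) * Q1 ≤ 256 * b * (w ^ 3 / n) * Q2 := by
        calc _ ≤ 256 * b * (w ^ 3 / n) * Q1 := mul_le_mul_of_nonneg_right hpK hQ10
          _ ≤ _ := mul_le_mul_of_nonneg_left hpm (by positivity)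
      linarith
    _ = _ := by ring

end Pool.Agent.H98.Bose2
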