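import Pool.Agent.H98.Bose2.Core

/-!
# From pairs at a distance to pairs in a cell, and the combined estimate
-/

set_option autoImplicit false

namespace Pool.Agent.H98.Bose2

open MeasureTheory Set Pool.Agent.H50.Bose

section Geometry

variable {N : ℕ}

theorem near_sum (ρ : ℝ) (X : Cfg (Fin N)) :
    ∑ p ∈ (Finset.univ : Finset (Fin N)).offDiag,
      (if ∀ a, |X p.1 a - X p.2 a| ≤ ρ then (1 : ℝ) else 0) = 2 * pairsAt ρ X := by
  classical
  have e : (Finset.univ : Finset (Fin N)).offDiag =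
      Finset.univ.filter fun p : Fin N × Fin N => p.1 ≠ p.2 := by
    ext p
    simp
  have e1 : pairsAt ρ X = ∑ i, ∑ l, if l < i ∧ (∀ a, |X i a - X l a| ≤ ρ) then (1 : ℝ) else 0 := by
    unfold pairsAt
    rw [Finset.sum_comm]
    apply Finset.sum_congr rfl
    intro l _
    apply Finset.sum_congr rfl
    intro i _
    simp only [abs_sub_comm]
  have e2 : pairsAt ρ X = ∑ i, ∑ l, if i < l ∧ (∀ a, |X i a - X l a| ≤ ρ) then (1 : ℝ) else 0 :=
    rfl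
  rw [e, Finset.sum_filter, ← Finset.univ_product_univ, Finset.sum_product, two_mul]
  nth_rewrite 1 [e1]
  rw [e2, ← Finset.sum_add_distrib]
  apply Finset.sum_congr rfl
  intro i _
  rw [← Finset.sum_add_distrib]
  apply Finset.sum_congr rfl
  intro l _
  by_cases h : ∀ a, |X i a - X l a| ≤ ρ
  · rcases lt_trichotomy i l with h' | h' | h'
    · simp [h, h', h'.ne, not_lt.mpr h'.le]
    · subst h'
      simp
    · simp [h, h', h'.ne', not_lt.mpr h'.le]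
  · simp [h]

theorem ordS_le_pairs {σ : ℝ} (hσ : 0 < σ) (X : Cfg (Fin N)) : ordS σ X ≤ 2 * pairsAt σ X := by
  rw [← near_sum]
  unfold ordS
  apply Finset.sum_le_sum
  intro p _
  by_cases h : cellOf σ (X p.1) = cellOf σ (X p.2)
  · rw [if_pos h, if_pos]
    intro a
    have h1 : ⌊X p.1 a / σ⌋ = ⌊X p.2 a / σ⌋ := congrFun h a
    have h2 := Int.abs_sub_lt_one_of_floor_eq_floor h1
    rw [← sub_div, abs_div, abs_of_pos hσ, div_lt_one hσ] at h2
    exact h2.le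
  · rw [if_neg h]
    split_ifs <;> norm_num

/-- Shift vector. -/
noncomputable def vec (s : ℝ) (δ : Fin 3 → Bool) : Fin 3 → ℝ := fun a => if δ a then s / 2 else 0

/-- Shift of a configuration. -/
def shift (u : Fin 3 → ℝ) : Cfg (Fin N) := fun _ => u

theorem floor_shift {x y s : ℝ} (hs : 0 < s) (h : |x - y| ≤ s / 4)
    (hne : ⌊x / s⌋ ≠ ⌊y / s⌋) : ⌊(x + s / 2) / s⌋ = ⌊(y + s / 2) / s⌋ := by
  have key : ∀ x y : ℝ, |x - y| ≤ s / 4 → ⌊x / s⌋ < ⌊y / s⌋ →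
      ⌊(x + s / 2) / s⌋ = ⌊(y + s / 2) / s⌋ := by
    intro x y h hlt
    have h0 := abs_le.mp h
    have h1 : x / s < ⌊y / s⌋ := Int.floor_lt.mp hlt
    have h2 := Int.floor_le (y / s)
    set m := ⌊y / s⌋ with hm
    have h3 : x < m * s := (div_lt_iff₀ hs).mp h1
    have h4 : m * s ≤ y := (le_div_iff₀ hs).mp h2
    have e1 : ⌊(x + s / 2) / s⌋ = m := by
      rw [Int.floor_eq_iff, le_div_iff₀ hs, div_lt_iff₀ hs]
      constructor
      · nlinarith [h0.1, h0.2]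
      · nlinarith [h0.1, h0.2]
    have e2 : ⌊(y + s / 2) / s⌋ = m := by
      rw [Int.floor_eq_iff, le_div_iff₀ hs, div_lt_iff₀ hs]
      constructor
      · nlinarith [h0.1, h0.2]
      · nlinarith [h0.1, h0.2]
    rw [e1, e2]
  rcases lt_or_gt_of_ne hne with h1 | h1
  · exact key x y h h1
  · exact (key y x (by rwa [abs_sub_comm]) h1).symm

theorem pairs_le_shift {ρ s : ℝ} (hs : 0 < s) (hρ : ρ ≤ s / 4) (X : Cfg (Fin N)) :
    pairsAt ρ X ≤ ∑ δ : Fin 3 → Bool, ordS s (X + shift (vec s δ)) := by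
  classical
  have h0 : pairsAt ρ X ≤ 2 * pairsAt ρ X := by
    have := pairsAt_nonneg ρ X
    linarith
  refine h0.trans ?_
  rw [← near_sum]
  unfold ordS
  rw [Finset.sum_comm]
  apply Finset.sum_le_sum
  intro p _
  have hnn : ∀ δ : Fin 3 → Bool, (0 : ℝ) ≤
      if cellOf s ((X + shift (vec s δ) : Cfg (Fin N)) p.1) =
        cellOf s ((X + shift (vec s δ) : Cfg (Fin N)) p.2)
        then (1 : ℝ) else 0 := by
    intro δ
    split_ifs <;> norm_num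
  by_cases h : ∀ a, |X p.1 a - X p.2 a| ≤ ρ
  · rw [if_pos h]
    set δ0 : Fin 3 → Bool := fun a => decide (⌊X p.1 a / s⌋ ≠ ⌊X p.2 a / s⌋) with hδ0
    have h1 : cellOf s ((X + shift (vec s δ0) : Cfg (Fin N)) p.1) =
        cellOf s ((X + shift (vec s δ0) : Cfg (Fin N)) p.2) := by
      funext a
      show ⌊(X p.1 a + vec s δ0 a) / s⌋ = ⌊(X p.2 a + vec s δ0 a) / s⌋
      by_cases h2 : ⌊X p.1 a / s⌋ = ⌊X p.2 a / s⌋
      · have : vec s δ0 a = 0 := by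
          unfold vec
          simp [hδ0, h2]
        rw [this, add_zero, add_zero, h2]
      · have : vec s δ0 a = s / 2 := by
          unfold vec
          simp [hδ0, h2]
        rw [this]
        exact floor_shift hs ((h a).trans hρ) h2
    calc (1 : ℝ) = if cellOf s ((X + shift (vec s δ0) : Cfg (Fin N)) p.1) =
          cellOf s ((X + shift (vec s δ0) : Cfg (Fin N)) p.2) then (1 : ℝ) else 0 := by
          rw [if_pos h1]
      _ ≤ _ := Finset.single_le_sum (f := fun δ => if cellOf s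
          ((X + shift (vec s δ) : Cfg (Fin N)) p.1) =
          cellOf s ((X + shift (vec s δ) : Cfg (Fin N)) p.2) then (1 : ℝ) else 0)
          (fun δ _ => hnn δ)
          (Finset.mem_univ δ0)
  · rw [if_neg h]
    exact Finset.sum_nonneg fun δ _ => hnn δ

theorem pairsAt_shift (ρ : ℝ) (X : Cfg (Fin N)) (u : Fin 3 → ℝ) :
    pairsAt ρ (X + shift u) = pairsAt ρ X := by
  unfold pairsAt
  apply Finset.sum_congr rfl
  intro i _
  apply Finset.sum_congr rfl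
  intro l _
  have : ∀ a, (X + shift u : Cfg (Fin N)) i a - (X + shift u : Cfg (Fin N)) l a =
      X i a - X l a := by
    intro a
    show X i a + u a - (X l a + u a) = X i a - X l a
    ring
  simp only [this]

end Geometry

section Star

variable {N : ℕ} {v3 : (Fin 3 → ℝ) → (Fin 3 → ℝ) → (Fin 3 → ℝ) → ℝ}

/-- The estimate for pairs in one cell. -/
theorem star (hvm : Measurable fun p : (Fin 3 → ℝ) × (Fin 3 → ℝ) × (Fin 3 → ℝ) =>
      v3 p.1 p.2.1 p.2.2) (hv0 : ∀ x y z, 0 ≤ v3 x y z)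
    (hs1 : ∀ x y z, v3 x y z = v3 x z y) (hs2 : ∀ x y z, v3 x y z = v3 y x z)
    {B : ℝ} (hB : 0 ≤ B) (hvB : ∀ x y z, v3 x y z ≤ B)
    {ψ : Cfg (Fin N) → ℂ} (hψ : ContDiff ℝ 1 ψ) (hs : HasCompactSupport ψ)
    {T : ℕ → ℝ} {s : ℝ} (hs0 : 0 < s) {δ p : ℕ → ℝ} (hδ : ∀ k, 0 < δ k) (hp0 : p 0 = 1)
    (hpn : ∀ k, 0 ≤ p k) (hp : ∀ k, p (k + 1) = p k * ((1 + δ k) / 8)) (K : ℕ)
    {c0 : ℝ} (hc0 : 0 < c0) (g : ℕ → ℝ) (d : ℕ → ℕ) (hg : ∀ k, 0 < g k)
    (hgd : ∀ k, 2 ^ k * s = 2 ^ d k * g k)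
    (hc : ∀ k, ∀ x y z, cellOf (g k) y = cellOf (g k) x → cellOf (g k) z = cellOf (g k) x →
      c0 ≤ v3 x y z) (hT0 : ∀ k, 0 < T k) (hT : ∀ k < K, 8 * 8 ^ d k ≤ T k) :
    ∫ X, ordS s X * ‖ψ X‖ ^ 2 ≤
      (∑ k ∈ Finset.range K, p k * (128 * 64 ^ d k / (c0 * T k))) *
        (∫ X, pot3 v3 X * ‖ψ X‖ ^ 2) +
      (∑ k ∈ Finset.range K, p k * ((1 + 1 / δ k) * (96 * (2 ^ k * s) ^ 2)) * (8 * T k)) *
        (∫ X, grad2 ψ X) + 2 * p K * ∫ X, pairsAt (2 ^ K * s) X * ‖ψ X‖ ^ 2 := by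
  have h1 := move_up hψ hs (fun k => (hT0 k).le) hs0 hδ hp0 hpn hp K
  have hpi : Integrable fun X : Cfg (Fin N) => pot3 v3 X * ‖ψ X‖ ^ 2 :=
    integrable_bdd hψ.continuous hs (measurable_pot3 hvm)
      (B := (Fintype.card (Fin N) : ℝ) ^ 3 * B) (fun X => by
        rw [abs_of_nonneg (pot3_nonneg hv0 X)]
        exact pot3_le hB hvB X)
  have hC : ∀ t ρ : ℝ, Integrable fun X : Cfg (Fin N) => crw t ρ X * ‖ψ X‖ ^ 2 := fun t ρ =>
    integrable_bdd hψ.continuous hs (measurable_crw t ρ) (B := (Fintype.card (Fin N) : ℝ) ^ 2)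
      (fun X => by
        rw [abs_of_nonneg (crw_nonneg _ _ X)]
        exact crw_le _ _ X)
  have hO : ∀ ρ : ℝ, Integrable fun X : Cfg (Fin N) => ordS ρ X * ‖ψ X‖ ^ 2 := fun ρ =>
    integrable_bdd hψ.continuous hs (measurable_ordS ρ) (B := (Fintype.card (Fin N) : ℝ) ^ 2)
      (fun X => by
        rw [abs_of_nonneg (ordS_nonneg _ X)]
        exact ordS_le _ X)
  have hP : ∀ ρ : ℝ, Integrable fun X : Cfg (Fin N) => pairsAt ρ X * ‖ψ X‖ ^ 2 := fun ρ =>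
    integrable_bdd hψ.continuous hs (measurable_pairsAt ρ) (B := (N : ℝ) ^ 2)
      (fun X => by
        rw [abs_of_nonneg (pairsAt_nonneg ρ X)]
        exact pairsAt_le ρ X)
  have h2 : ∀ k < K, ∫ X : Cfg (Fin N), crw (T k) (2 ^ k * s) X * ‖ψ X‖ ^ 2 ≤
      128 * 64 ^ d k / (c0 * T k) * ∫ X, pot3 v3 X * ‖ψ X‖ ^ 2 := by
    intro k hk
    rw [← integral_const_mul]
    apply integral_mono (hC _ _) (hpi.const_mul _)
    intro X
    show crw (T k) (2 ^ k * s) X * ‖ψ X‖ ^ 2 ≤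
      128 * 64 ^ d k / (c0 * T k) * (pot3 v3 X * ‖ψ X‖ ^ 2)
    have h3 := core_bound hv0 hs1 hs2 (hg k) hc0.le (hc k) (d k) (hT k hk) X
    rw [← hgd k] at h3
    have h4 : crw (T k) (2 ^ k * s) X ≤ 128 * 64 ^ d k / (c0 * T k) * pot3 v3 X := by
      have hcT : 0 < c0 * T k := mul_pos hc0 (hT0 k)
      rw [div_mul_eq_mul_div, le_div_iff₀ hcT]
      linarith
    rw [← mul_assoc]
    exact mul_le_mul_of_nonneg_right h4 (sq_nonneg _)
  have h3 : ∑ k ∈ Finset.range K, p k * (∫ X : Cfg (Fin N), crw (T k) (2 ^ k * s) X * ‖ψ X‖ ^ 2)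
      ≤ (∑ k ∈ Finset.range K, p k * (128 * 64 ^ d k / (c0 * T k))) *
        (∫ X, pot3 v3 X * ‖ψ X‖ ^ 2) := by
    rw [Finset.sum_mul]
    apply Finset.sum_le_sum
    intro k hk
    rw [mul_assoc]
    exact mul_le_mul_of_nonneg_left (h2 k (Finset.mem_range.mp hk)) (hpn k)
  have h4 : ∫ X : Cfg (Fin N), ordS (2 ^ K * s) X * ‖ψ X‖ ^ 2 ≤
      2 * ∫ X : Cfg (Fin N), pairsAt (2 ^ K * s) X * ‖ψ X‖ ^ 2 := by
    rw [← integral_const_mul]
    apply integral_mono (hO _) ((hP _).const_mul _)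
    intro X
    show ordS (2 ^ K * s) X * ‖ψ X‖ ^ 2 ≤ 2 * (pairsAt (2 ^ K * s) X * ‖ψ X‖ ^ 2)
    rw [← mul_assoc]
    exact mul_le_mul_of_nonneg_right (ordS_le_pairs (by positivity) X) (sq_nonneg _)
  have h5 := mul_le_mul_of_nonneg_left h4 (hpn K)
  have e : p K * (2 * ∫ X : Cfg (Fin N), pairsAt (2 ^ K * s) X * ‖ψ X‖ ^ 2) =
      2 * p K * ∫ X : Cfg (Fin N), pairsAt (2 ^ K * s) X * ‖ψ X‖ ^ 2 := by ring
  rw [e] at h5
  linarith

/-- Translated test function. -/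
theorem grad2_sub (ψ : Cfg (Fin N) → ℂ) (v X : Cfg (Fin N)) :
    grad2 (fun X => ψ (X - v)) X = grad2 ψ (X - v) := by
  unfold grad2
  rw [fderiv_comp_sub]

/-- The estimate for pairs at distance at most `ρ`. -/
theorem star_pairs (hvm : Measurable fun p : (Fin 3 → ℝ) × (Fin 3 → ℝ) × (Fin 3 → ℝ) =>
      v3 p.1 p.2.1 p.2.2) (hv0 : ∀ x y z, 0 ≤ v3 x y z)
    (hs1 : ∀ x y z, v3 x y z = v3 x z y) (hs2 : ∀ x y z, v3 x y z = v3 y x z)
    (hvt : ∀ u x y z, v3 (x + u) (y + u) (z + u) = v3 x y z)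
    {B : ℝ} (hB : 0 ≤ B) (hvB : ∀ x y z, v3 x y z ≤ B)
    {ψ : Cfg (Fin N) → ℂ} (hψ : ContDiff ℝ 1 ψ) (hs : HasCompactSupport ψ)
    {T : ℕ → ℝ} {s : ℝ} (hs0 : 0 < s) {δ p : ℕ → ℝ} (hδ : ∀ k, 0 < δ k) (hp0 : p 0 = 1)
    (hpn : ∀ k, 0 ≤ p k) (hp : ∀ k, p (k + 1) = p k * ((1 + δ k) / 8)) (K : ℕ)
    {c0 : ℝ} (hc0 : 0 < c0) (g : ℕ → ℝ) (d : ℕ → ℕ) (hg : ∀ k, 0 < g k)
    (hgd : ∀ k, 2 ^ k * s = 2 ^ d k * g k)
    (hc : ∀ k, ∀ x y z, cellOf (g k) y = cellOf (g k) x → cellOf (g k) z = cellOf (g k) x →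
      c0 ≤ v3 x y z) (hT0 : ∀ k, 0 < T k) (hT : ∀ k < K, 8 * 8 ^ d k ≤ T k)
    {ρ : ℝ} (hρ : ρ ≤ s / 4) :
    ∫ X, pairsAt ρ X * ‖ψ X‖ ^ 2 ≤ 8 * (
      (∑ k ∈ Finset.range K, p k * (128 * 64 ^ d k / (c0 * T k))) *
        (∫ X, pot3 v3 X * ‖ψ X‖ ^ 2) +
      (∑ k ∈ Finset.range K, p k * ((1 + 1 / δ k) * (96 * (2 ^ k * s) ^ 2)) * (8 * T k)) *
        (∫ X, grad2 ψ X) + 2 * p K * ∫ X, pairsAt (2 ^ K * s) X * ‖ψ X‖ ^ 2) := by
  have hP : ∀ ρ : ℝ, Integrable fun X : Cfg (Fin N) => pairsAt ρ X * ‖ψ X‖ ^ 2 := fun ρ =>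
    integrable_bdd hψ.continuous hs (measurable_pairsAt ρ) (B := (N : ℝ) ^ 2)
      (fun X => by
        rw [abs_of_nonneg (pairsAt_nonneg ρ X)]
        exact pairsAt_le ρ X)
  have hO : ∀ δ : Fin 3 → Bool, Integrable fun X : Cfg (Fin N) =>
      ordS s (X + shift (vec s δ)) * ‖ψ X‖ ^ 2 := fun δ =>
    integrable_bdd hψ.continuous hs ((measurable_ordS s).comp (measurable_id.add_const _))
      (B := (Fintype.card (Fin N) : ℝ) ^ 2)
      (fun X => by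
        rw [abs_of_nonneg (ordS_nonneg _ _)]
        exact ordS_le _ _)
  have h1 : ∫ X, pairsAt ρ X * ‖ψ X‖ ^ 2 ≤ ∑ δ : Fin 3 → Bool,
      ∫ X : Cfg (Fin N), ordS s (X + shift (vec s δ)) * ‖ψ X‖ ^ 2 := by
    rw [← integral_finsetSum _ (fun δ _ => hO δ)]
    apply integral_mono (hP ρ) (integrable_finsetSum _ fun δ _ => hO δ)
    intro X
    show pairsAt ρ X * ‖ψ X‖ ^ 2 ≤ ∑ δ : Fin 3 → Bool, ordS s (X + shift (vec s δ)) * ‖ψ X‖ ^ 2
    rw [← Finset.sum_mul]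
    exact mul_le_mul_of_nonneg_right (pairs_le_shift hs0 hρ X) (sq_nonneg _)
  set R := (∑ k ∈ Finset.range K, p k * (128 * 64 ^ d k / (c0 * T k))) *
        (∫ X, pot3 v3 X * ‖ψ X‖ ^ 2) +
      (∑ k ∈ Finset.range K, p k * ((1 + 1 / δ k) * (96 * (2 ^ k * s) ^ 2)) * (8 * T k)) *
        (∫ X, grad2 ψ X) + 2 * p K * ∫ X, pairsAt (2 ^ K * s) X * ‖ψ X‖ ^ 2 with hR
  have h2 : ∀ δ' : Fin 3 → Bool,
      ∫ X : Cfg (Fin N), ordS s (X + shift (vec s δ')) * ‖ψ X‖ ^ 2 ≤ R := by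
    intro δ'
    set u := vec s δ' with hu
    set v : Cfg (Fin N) := shift u with hv
    set φ : Cfg (Fin N) → ℂ := fun X => ψ (X - v) with hφ
    have hφ1 : ContDiff ℝ 1 φ := hψ.comp (contDiff_id.sub contDiff_const)
    have hφs : HasCompactSupport φ := by
      have := hs.comp_homeomorph (Homeomorph.subRight v)
      exact this
    have h3 := star hvm hv0 hs1 hs2 hB hvB hφ1 hφs hs0 hδ hp0 hpn hp K hc0 g d hg hgd hc hT0 hT
    have e1 : ∫ X : Cfg (Fin N), ordS s (X + v) * ‖ψ X‖ ^ 2 =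
        ∫ X : Cfg (Fin N), ordS s X * ‖φ X‖ ^ 2 := by
      rw [← integral_add_right_eq_self (fun X : Cfg (Fin N) => ordS s X * ‖φ X‖ ^ 2) v]
      simp only [hφ, add_sub_cancel_right]
    have e2 : ∫ X : Cfg (Fin N), pot3 v3 X * ‖φ X‖ ^ 2 =
        ∫ X : Cfg (Fin N), pot3 v3 X * ‖ψ X‖ ^ 2 := by
      rw [← integral_add_right_eq_self (fun X : Cfg (Fin N) => pot3 v3 X * ‖φ X‖ ^ 2) v]
      apply integral_congr_ae
      apply Filter.Eventually.of_forall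
      intro X
      have e : pot3 v3 (X + v) = pot3 v3 X := by
        unfold pot3
        apply Finset.sum_congr rfl
        intro i _
        apply Finset.sum_congr rfl
        intro j _
        apply Finset.sum_congr rfl
        intro k _
        have : v3 ((X + v) i) ((X + v) j) ((X + v) k) = v3 (X i) (X j) (X k) := hvt u _ _ _
        rw [this]
      simp only [hφ, add_sub_cancel_right, e]
    have e3 : ∫ X : Cfg (Fin N), grad2 φ X = ∫ X : Cfg (Fin N), grad2 ψ X := by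
      rw [← integral_add_right_eq_self (fun X : Cfg (Fin N) => grad2 φ X) v]
      apply integral_congr_ae
      apply Filter.Eventually.of_forall
      intro X
      show grad2 φ (X + v) = grad2 ψ X
      rw [hφ, grad2_sub, add_sub_cancel_right]
    have e4 : ∫ X : Cfg (Fin N), pairsAt (2 ^ K * s) X * ‖φ X‖ ^ 2 =
        ∫ X : Cfg (Fin N), pairsAt (2 ^ K * s) X * ‖ψ X‖ ^ 2 := by
      rw [← integral_add_right_eq_self (fun X : Cfg (Fin N) =>
        pairsAt (2 ^ K * s) X * ‖φ X‖ ^ 2) v]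
      apply integral_congr_ae
      apply Filter.Eventually.of_forall
      intro X
      simp only [hφ, add_sub_cancel_right, hv, pairsAt_shift]
    rw [e1]
    rw [e2, e3, e4] at h3
    exact h3
  calc ∫ X, pairsAt ρ X * ‖ψ X‖ ^ 2 ≤ _ := h1
    _ ≤ ∑ _δ : Fin 3 → Bool, R := Finset.sum_le_sum fun δ _ => h2 δ
    _ = 8 * R := by
      rw [Finset.sum_const, Finset.card_univ, Fintype.card_fun, Fintype.card_bool,
        Fintype.card_fin, nsmul_eq_mul]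
      norm_num

end Star

end Pool.Agent.H98.Bose2
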