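import Pool.Agent.H98.Bose2.CorePairs
import Pool.Agent.H58.PC.Low

/-!
# Stability of the second kind for `β < 3/4` and a three-body potential with a core
-/

set_option autoImplicit false

namespace Pool.Agent.H98.Bose2

open MeasureTheory Set Pool.Agent.H50.Bose Filter

theorem stable_of_pairs {β : ℝ} (hβ : β ≤ 1) {U : (Fin 3 → ℝ) → ℝ}
    (hU : IsTrap U) {V : (Fin 3 → ℝ) → (Fin 3 → ℝ) → ℝ} (hV : IsThreeBody V)
    {W : (Fin 3 → ℝ) → ℝ} {b R R' : ℝ} (hb : ∀ x, |W x| ≤ b)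
    (hR : ∀ x, W x ≠ 0 → ∀ a, |x a| ≤ R) (hR'0 : 0 ≤ R')
    (hev : ∀ᶠ N : ℕ in atTop, ∀ ψ : Cfg (Fin N) → ℂ,
      ContDiff ℝ 1 ψ → HasCompactSupport ψ →
      b * (N : ℝ) ^ (3 * β - 1) * (∫ X, pairsAt (R * (N : ℝ) ^ (-β)) X * ‖ψ X‖ ^ 2) ≤
        1 / 4 * (∫ X, tot (v3s V ((N : ℝ) ^ (1 / 2 : ℝ))) ψ X) +
          256 * b * (N : ℝ) ^ (3 * (3 / 10 : ℝ) - 1) *
            ∫ X, pairsAt (R' * (N : ℝ) ^ (-(3 / 10 : ℝ))) X * ‖ψ X‖ ^ 2) : Stable β U V W := by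
  have hb0 : 0 ≤ b := (abs_nonneg _).trans (hb 0)
  obtain ⟨C, hC0, hC⟩ := Pool.Agent.H58.PC.pairs_bound_low (β := 3 / 10) (by norm_num)
    (by norm_num) hV (b := 2 * (256 * b)) (RW := R') (by positivity) hR'0
  obtain ⟨N0, hN0⟩ := eventually_atTop.mp hev
  refine ⟨C + b * (N0 : ℝ) ^ 4 + 1, by positivity, ?_⟩
  intro N hN ψ hψ
  have hψ1 : ContDiff ℝ 1 ψ := hψ.smooth.of_le (by exact_mod_cast le_top)
  have hNpos : (0 : ℝ) < N := by exact_mod_cast hN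
  have hN1 : (1 : ℝ) ≤ N := by exact_mod_cast hN
  have hI0 : 0 ≤ ∫ X, ‖ψ X‖ ^ 2 := integral_nonneg fun X => sq_nonneg _
  set v3 := v3s V ((N : ℝ) ^ (1 / 2 : ℝ)) with hv3
  have hv0 : ∀ x y z, 0 ≤ v3 x y z := fun x y z => mul_nonneg (sq_nonneg _) (hV.nonneg _ _)
  have htn : ∀ X, 0 ≤ tot v3 ψ X := fun X =>
    add_nonneg (grad2_nonneg _ _) (mul_nonneg (pot3_nonneg hv0 X) (sq_nonneg _))
  have hE0 : 0 ≤ ∫ X, tot v3 ψ X := integral_nonneg htn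
  have hfin : ∀ c : ℝ, 0 ≤ c → c ≤ (C + b * (N0 : ℝ) ^ 4 + 1) * N →
      b * (N : ℝ) ^ (3 * β - 1) * (∫ X, pairsAt (R * (N : ℝ) ^ (-β)) X * ‖ψ X‖ ^ 2) ≤
        c * (∫ X, ‖ψ X‖ ^ 2) + ∫ X, tot v3 ψ X →
      -(C + b * (N0 : ℝ) ^ 4 + 1) * N * ∫ X, ‖ψ X‖ ^ 2 ≤ energy N β U V W ψ := by
    intro c hc0 hc h
    have h1 := energy_ge hN hU hV hb hR hψ hc0 h
    have h2 := mul_le_mul_of_nonneg_right hc hI0
    linarith
  rcases lt_or_ge N N0 with hNN | hNN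
  · -- small N
    apply hfin (b * (N0 : ℝ) ^ 4) (by positivity) (by
      have h1 : 0 ≤ b * (N0 : ℝ) ^ 4 := by positivity
      have h2 : b * (N0 : ℝ) ^ 4 * 1 ≤ b * (N0 : ℝ) ^ 4 * N := mul_le_mul_of_nonneg_left hN1 h1
      nlinarith)
    have h1 : ∫ X, pairsAt (R * (N : ℝ) ^ (-β)) X * ‖ψ X‖ ^ 2 ≤
        (N : ℝ) ^ 2 * ∫ X, ‖ψ X‖ ^ 2 := by
      rw [← integral_const_mul]
      apply integral_mono
      · exact integrable_bdd hψ1.continuous hψ.supp (measurable_pairsAt _) (B := (N : ℝ) ^ 2)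
          (fun X => by
            rw [abs_of_nonneg (pairsAt_nonneg _ X)]
            exact pairsAt_le _ X)
      · exact (integrable_sq hψ1.continuous hψ.supp).const_mul _
      · intro X
        exact mul_le_mul_of_nonneg_right (pairsAt_le _ X) (sq_nonneg _)
    have hNN' : (N : ℝ) ≤ N0 := by exact_mod_cast hNN.le
    have ht : (N : ℝ) ^ (3 * β - 1) ≤ (N : ℝ) ^ 2 := by
      rw [← Real.rpow_natCast]
      apply Real.rpow_le_rpow_of_exponent_le hN1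
      push_cast
      linarith
    have hp0 : 0 ≤ ∫ X, pairsAt (R * (N : ℝ) ^ (-β)) X * ‖ψ X‖ ^ 2 :=
      integral_nonneg fun X => mul_nonneg (pairsAt_nonneg _ _) (sq_nonneg _)
    have h2 : b * (N : ℝ) ^ (3 * β - 1) *
        (∫ X, pairsAt (R * (N : ℝ) ^ (-β)) X * ‖ψ X‖ ^ 2) ≤
        b * (N : ℝ) ^ 2 * ((N : ℝ) ^ 2 * ∫ X, ‖ψ X‖ ^ 2) := by
      have h3 : b * (N : ℝ) ^ (3 * β - 1) ≤ b * (N : ℝ) ^ 2 := mul_le_mul_of_nonneg_left ht hb0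
      exact mul_le_mul h3 h1 hp0 (by positivity)
    have h3 : b * (N : ℝ) ^ 2 * ((N : ℝ) ^ 2 * ∫ X, ‖ψ X‖ ^ 2) ≤
        b * (N0 : ℝ) ^ 4 * ∫ X, ‖ψ X‖ ^ 2 := by
      have h4 : (N : ℝ) ^ 4 ≤ (N0 : ℝ) ^ 4 := pow_le_pow_left₀ hNpos.le hNN' 4
      calc _ = b * (N : ℝ) ^ 4 * ∫ X, ‖ψ X‖ ^ 2 := by ring
        _ ≤ _ := mul_le_mul_of_nonneg_right (mul_le_mul_of_nonneg_left h4 hb0) hI0
    linarith
  · -- large N
    have h1 := hN0 N hNN ψ hψ1 hψ.supp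
    have h2 := hC N hN ψ hψ1 hψ.supp
    apply hfin (C * N) (by positivity) (by
      have : 0 ≤ (b * (N0 : ℝ) ^ 4 + 1) * N := by positivity
      nlinarith)
    have h3 : 0 ≤ C * N * ∫ X, ‖ψ X‖ ^ 2 := by positivity
    rw [← hv3] at h1 h2
    linarith

/-- Stability below `3/4` for a three-body potential with a core. -/
theorem stable_core {β : ℝ} (hβ0 : 0 < β) (hβ : β < 3 / 4) {U : (Fin 3 → ℝ) → ℝ}
    (hU : IsTrap U) {V : (Fin 3 → ℝ) → (Fin 3 → ℝ) → ℝ} (hV : IsThreeBody V) (hV1 : HasCore V)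
    {W : (Fin 3 → ℝ) → ℝ} (hW : IsPair W) : Stable β U V W := by
  rcases lt_or_ge β (1 / 3) with hlt | hge
  · exact stable_of_lt hβ0 hlt hU hV hW
  obtain ⟨R, hR0, hR⟩ := hW.exists_supp
  obtain ⟨b, hb⟩ := hW.bdd
  have hb0 : 0 ≤ b := (abs_nonneg _).trans (hb 0)
  obtain ⟨R', hR'0, hev⟩ := core_pairs (by linarith : 3 / 10 ≤ β) hβ hV hV1 hb0 (R := R)
  exact stable_of_pairs (by linarith) hU hV hb hR hR'0 hev

/-- Stability at `3/4` for a three-body potential with a core and a weak pair interaction. -/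
theorem stable_core_weak {V : (Fin 3 → ℝ) → (Fin 3 → ℝ) → ℝ} (hV : IsThreeBody V)
    (hV1 : HasCore V) (R : ℝ) : ∃ b : ℝ, 0 < b ∧ ∀ U : (Fin 3 → ℝ) → ℝ, IsTrap U →
      ∀ W : (Fin 3 → ℝ) → ℝ, IsPair W → (∀ x, |W x| ≤ b) → (∀ x, W x ≠ 0 → len x ≤ R) →
      Stable (3 / 4) U V W := by
  obtain ⟨b, hb, h⟩ := core_pairs_weak hV hV1 R
  refine ⟨b, hb, ?_⟩
  intro U hU W hW hWb hWR
  obtain ⟨R', hR'0, hev⟩ := h b hb.le le_rfl
  refine stable_of_pairs (by norm_num) hU hV hWb ?_ hR'0 hev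
  intro x hx a
  refine le_trans ?_ (hWR x hx)
  unfold len
  rw [← Real.sqrt_sq_eq_abs]
  exact Real.sqrt_le_sqrt (Finset.single_le_sum (fun i _ => sq_nonneg (x i)) (Finset.mem_univ a))

end Pool.Agent.H98.Bose2
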