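import Pool.Agent.H98.Bose2.Chain

/-!
# Moving all pairs to larger scales

The sum of the estimates of `Chain.lean` over all ordered pairs, in real form.
-/

set_option autoImplicit false

namespace Pool.Agent.H98.Bose2

open MeasureTheory Set Pool.Agent.H50.Bose

section Defs

variable {κ : Type} [Fintype κ] [DecidableEq κ]

/-- Number of ordered pairs of particles in one cell of side `r`. -/
noncomputable def ordS (r : ℝ) (X : Cfg κ) : ℝ :=
  ∑ p ∈ (Finset.univ : Finset κ).offDiag,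
    if cellOf r (X p.1) = cellOf r (X p.2) then (1 : ℝ) else 0

/-- Number of ordered pairs of particles in one crowded cell of side `r`. -/
noncomputable def crw (T r : ℝ) (X : Cfg κ) : ℝ :=
  ∑ p ∈ (Finset.univ : Finset κ).offDiag,
    if cellOf r (X p.1) = cellOf r (X p.2) ∧ T < mnum r p.1 p.2 X then (1 : ℝ) else 0

omit [DecidableEq κ] in
theorem ordS_nonneg (r : ℝ) (X : Cfg κ) : 0 ≤ ordS r X :=
  Finset.sum_nonneg fun _ _ => by split_ifs <;> norm_num

theorem crw_nonneg (T r : ℝ) (X : Cfg κ) : 0 ≤ crw T r X :=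
  Finset.sum_nonneg fun _ _ => by split_ifs <;> norm_num

omit [DecidableEq κ] in
theorem offDiag_card_le : ((Finset.univ : Finset κ).offDiag.card : ℝ) ≤
    (Fintype.card κ : ℝ) ^ 2 := by
  have h1 : (Finset.univ : Finset κ).offDiag.card ≤ Fintype.card κ * Fintype.card κ := by
    rw [Finset.offDiag_card, Finset.card_univ]
    omega
  rw [sq]
  exact_mod_cast h1

omit [DecidableEq κ] in
theorem ordS_le (r : ℝ) (X : Cfg κ) : ordS r X ≤ (Fintype.card κ : ℝ) ^ 2 := by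
  unfold ordS
  refine le_trans ?_ offDiag_card_le
  calc _ ≤ ∑ _p ∈ (Finset.univ : Finset κ).offDiag, (1 : ℝ) :=
        Finset.sum_le_sum fun _ _ => by split_ifs <;> norm_num
    _ = _ := by simp

theorem crw_le (T r : ℝ) (X : Cfg κ) : crw T r X ≤ (Fintype.card κ : ℝ) ^ 2 := by
  unfold crw
  refine le_trans ?_ offDiag_card_le
  calc _ ≤ ∑ _p ∈ (Finset.univ : Finset κ).offDiag, (1 : ℝ) :=
        Finset.sum_le_sum fun _ _ => by split_ifs <;> norm_num
    _ = _ := by simp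

omit [DecidableEq κ] in
theorem measurable_ordS (r : ℝ) : Measurable fun X : Cfg κ => ordS r X := by
  have h2 : Measurable fun q : κ → Fin 3 → ℤ => (∑ p ∈ (Finset.univ : Finset κ).offDiag,
    if q p.1 = q p.2 then (1 : ℝ) else 0) := measurable_of_countable _
  exact h2.comp (measurable_cells r)

theorem measurable_crw (T r : ℝ) : Measurable fun X : Cfg κ => crw T r X := by
  have h2 : Measurable fun q : κ → Fin 3 → ℤ => (∑ p ∈ (Finset.univ : Finset κ).offDiag,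
    if q p.1 = q p.2 ∧ T < mq p.1 p.2 q then (1 : ℝ) else 0) := measurable_of_countable _
  exact h2.comp (measurable_cells r)

omit [DecidableEq κ] in
theorem sum_same (r : ℝ) (X : Cfg κ) :
    ∑ p ∈ (Finset.univ : Finset κ).offDiag, same r p.1 p.2 X = ENNReal.ofReal (ordS r X) := by
  unfold ordS
  rw [ENNReal.ofReal_sum_of_nonneg (fun _ _ => by split_ifs <;> norm_num)]
  apply Finset.sum_congr rfl
  intro p _
  unfold same
  split_ifs <;> simp

theorem sum_bad (T r : ℝ) (X : Cfg κ) :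
    ∑ p ∈ (Finset.univ : Finset κ).offDiag, bad T r p.1 p.2 X * same r p.1 p.2 X =
      ENNReal.ofReal (crw T r X) := by
  unfold crw
  rw [ENNReal.ofReal_sum_of_nonneg (fun _ _ => by split_ifs <;> norm_num)]
  apply Finset.sum_congr rfl
  intro p _
  unfold same bad
  by_cases h1 : cellOf r (X p.1) = cellOf r (X p.2)
  · by_cases h2 : (mnum r p.1 p.2 X : ℝ) ≤ T
    · rw [if_pos h1, if_pos h2, if_neg (fun h => not_lt.mpr h2 h.2)]
      simp
    · rw [if_pos h1, if_neg h2, if_pos ⟨h1, not_le.mp h2⟩]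
      simp
  · simp [h1]

/-- The gradient terms. -/
theorem sum_alive {T : ℕ → ℝ} (hT : ∀ k, 0 ≤ T k) {r : ℝ} (hr : 0 < r) (k : ℕ)
    (g : κ → ENNReal) (X : Cfg κ) :
    ∑ p ∈ (Finset.univ : Finset κ).offDiag, alive T r (k + 1) p.1 p.2 X *
      same (2 ^ (k + 1) * r) p.1 p.2 X * g p.1 ≤ ENNReal.ofReal (8 * T k) * ∑ i, g i := by
  have h1 : ∀ i j : κ, alive T r (k + 1) i j X * same (2 ^ (k + 1) * r) i j X ≤
      if cellOf (2 * (2 ^ k * r)) (X i) = cellOf (2 * (2 ^ k * r)) (X j) ∧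
        (mnum (2 ^ k * r) i j X : ℝ) ≤ T k then 1 else 0 := by
    intro i j
    have e2 : 2 ^ (k + 1) * r = 2 * (2 ^ k * r) := by
      rw [pow_succ]
      ring
    rw [alive_succ, e2]
    unfold same
    by_cases h2 : cellOf (2 * (2 ^ k * r)) (X i) = cellOf (2 * (2 ^ k * r)) (X j)
    · rw [if_pos h2, mul_one]
      by_cases h3 : (mnum (2 ^ k * r) i j X : ℝ) ≤ T k
      · rw [if_pos ⟨h2, h3⟩]
        exact mul_le_one' (alive_le_one _ _ _ _ _ _) (good_le_one _ _ _ _ _)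
      · rw [if_neg (fun h => h3 h.2)]
        unfold good
        rw [if_neg h3, mul_zero]
    · rw [if_neg h2, mul_zero]
      exact bot_le
  have h2 : ∑ p ∈ (Finset.univ : Finset κ).offDiag, alive T r (k + 1) p.1 p.2 X *
      same (2 ^ (k + 1) * r) p.1 p.2 X * g p.1 ≤
      ∑ p ∈ (Finset.univ : Finset κ).offDiag, (if cellOf (2 * (2 ^ k * r)) (X p.1) =
        cellOf (2 * (2 ^ k * r)) (X p.2) ∧
        (mnum (2 ^ k * r) p.1 p.2 X : ℝ) ≤ T k then 1 else 0) * g p.1 := by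
    apply Finset.sum_le_sum
    intro p _
    gcongr
    exact h1 _ _
  refine h2.trans ?_
  have h3 : ∑ p ∈ (Finset.univ : Finset κ).offDiag, (if cellOf (2 * (2 ^ k * r)) (X p.1) =
        cellOf (2 * (2 ^ k * r)) (X p.2) ∧
        (mnum (2 ^ k * r) p.1 p.2 X : ℝ) ≤ T k then (1 : ENNReal) else 0) * g p.1 =
      ∑ i, ∑ j, (if i ≠ j ∧ cellOf (2 * (2 ^ k * r)) (X i) =
        cellOf (2 * (2 ^ k * r)) (X j) ∧
        (mnum (2 ^ k * r) i j X : ℝ) ≤ T k then 1 else 0) * g i := by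
    rw [← Finset.sum_product', Finset.univ_product_univ]
    have e : (Finset.univ : Finset κ).offDiag =
        Finset.univ.filter fun p : κ × κ => p.1 ≠ p.2 := by
      ext p
      simp
    rw [e, Finset.sum_filter]
    apply Finset.sum_congr rfl
    intro p _
    by_cases h : p.1 ≠ p.2
    · simp only [h, if_true, true_and, ne_eq, not_false_eq_true]
    · simp only [h, if_false, false_and, zero_mul]
  rw [h3, Finset.mul_sum]
  apply Finset.sum_le_sum
  intro i _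
  rw [← Finset.sum_mul]
  gcongr
  rw [Finset.sum_ite, Finset.sum_const, Finset.sum_const_zero, add_zero, nsmul_eq_mul, mul_one]
  have h4 := count_alive (by positivity : 0 < 2 ^ k * r) (hT k) i X
  rw [← ENNReal.ofReal_natCast]
  exact ENNReal.ofReal_le_ofReal h4

end Defs

section Main

variable {κ : Type} [Fintype κ] [DecidableEq κ]

theorem move_up_lintegral {ψ : Cfg κ → ℂ} (hψ : ContDiff ℝ 1 ψ) {T : ℕ → ℝ} (hT : ∀ k, 0 ≤ T k)
    {r : ℝ} (hr : 0 < r) {δ p : ℕ → ℝ} (hδ : ∀ k, 0 < δ k) (hp0 : p 0 = 1) (hpn : ∀ k, 0 ≤ p k)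
    (hp : ∀ k, p (k + 1) = p k * ((1 + δ k) / 8)) (K : ℕ) :
    ∫⁻ X, ENNReal.ofReal (ordS r X) * ENNReal.ofReal (‖ψ X‖ ^ 2) ≤
      (∑ k ∈ Finset.range K, ENNReal.ofReal (p k) *
        ∫⁻ X, ENNReal.ofReal (crw (T k) (2 ^ k * r) X) * ENNReal.ofReal (‖ψ X‖ ^ 2)) +
      (∑ k ∈ Finset.range K, ENNReal.ofReal (p k * ((1 + 1 / δ k) * (96 * (2 ^ k * r) ^ 2)) *
        (8 * T k)) * ∫⁻ X, ENNReal.ofReal (grad2 ψ X)) +
      ENNReal.ofReal (p K) * ∫⁻ X, ENNReal.ofReal (ordS (2 ^ K * r) X) *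
        ENNReal.ofReal (‖ψ X‖ ^ 2) := by
  have hψc := hψ.continuous
  have hms := fun (ρ : ℝ) (i j : κ) => measurable_same (κ := κ) ρ i j
  have hmb := fun (t ρ : ℝ) (i j : κ) => measurable_bad (κ := κ) t ρ i j
  have hma := fun (k : ℕ) (i j : κ) => measurable_alive (κ := κ) T r k i j
  have hgc := fun i => (continuous_gradp hψ i)
  set O := (Finset.univ : Finset κ).offDiag with hO
  have e1 : ∀ ρ : ℝ, ∫⁻ X, ENNReal.ofReal (ordS ρ X) * ENNReal.ofReal (‖ψ X‖ ^ 2) =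
      ∑ q ∈ O, ∫⁻ X, same ρ q.1 q.2 X * ENNReal.ofReal (‖ψ X‖ ^ 2) := by
    intro ρ
    rw [← lintegral_finsetSum _ (fun q _ => by
      have := hms ρ q.1 q.2
      fun_prop)]
    apply lintegral_congr
    intro X
    rw [← sum_same, Finset.sum_mul]
  have e2 : ∀ k : ℕ, ∫⁻ X, ENNReal.ofReal (crw (T k) (2 ^ k * r) X) *
      ENNReal.ofReal (‖ψ X‖ ^ 2) =
      ∑ q ∈ O, ∫⁻ X, bad (T k) (2 ^ k * r) q.1 q.2 X * same (2 ^ k * r) q.1 q.2 X *
        ENNReal.ofReal (‖ψ X‖ ^ 2) := by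
    intro k
    rw [← lintegral_finsetSum _ (fun q _ => by
      have := hms (2 ^ k * r) q.1 q.2
      have := hmb (T k) (2 ^ k * r) q.1 q.2
      fun_prop)]
    apply lintegral_congr
    intro X
    rw [← sum_bad, Finset.sum_mul]
  have e3 : ∀ k : ℕ, ∑ q ∈ O, ∫⁻ X, alive T r (k + 1) q.1 q.2 X *
      same (2 ^ (k + 1) * r) q.1 q.2 X * ENNReal.ofReal (gradp ψ q.1 X) ≤
      ENNReal.ofReal (8 * T k) * ∫⁻ X, ENNReal.ofReal (grad2 ψ X) := by
    intro k
    have hgm : Measurable fun X => ENNReal.ofReal (grad2 ψ X) :=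
      (continuous_grad2 hψ).measurable.ennreal_ofReal
    rw [← lintegral_finsetSum _ (fun q _ => by
      have := hms (2 ^ (k + 1) * r) q.1 q.2
      have := hma (k + 1) q.1 q.2
      have := hgc q.1
      fun_prop), ← lintegral_const_mul _ hgm]
    apply lintegral_mono
    intro X
    show ∑ q ∈ O, alive T r (k + 1) q.1 q.2 X *
      same (2 ^ (k + 1) * r) q.1 q.2 X * ENNReal.ofReal (gradp ψ q.1 X) ≤
      ENNReal.ofReal (8 * T k) * ENNReal.ofReal (grad2 ψ X)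
    refine (sum_alive hT hr k (fun i => ENNReal.ofReal (gradp ψ i X)) X).trans ?_
    rw [grad2_eq, ENNReal.ofReal_sum_of_nonneg (fun i _ => gradp_nonneg ψ i X)]
  have h1 : ∀ q ∈ O, _ := fun q hq =>
    chain hψ (i := q.1) (j := q.2) (by
      rw [hO, Finset.mem_offDiag] at hq
      exact hq.2.2) T hr hδ hp0 hpn hp K
  rw [e1, e1]
  refine (Finset.sum_le_sum h1).trans ?_
  rw [Finset.sum_add_distrib, Finset.sum_add_distrib]
  apply add_le_add (add_le_add _ _)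
  · rw [Finset.mul_sum]
    apply Finset.sum_le_sum
    intro q _
    gcongr with X
    calc alive T r K q.1 q.2 X * same (2 ^ K * r) q.1 q.2 X ≤
        1 * same (2 ^ K * r) q.1 q.2 X := by
          gcongr
          exact alive_le_one _ _ _ _ _ _
      _ = _ := one_mul _
  · rw [Finset.sum_comm]
    apply Finset.sum_le_sum
    intro k _
    rw [e2, Finset.mul_sum]
  · rw [Finset.sum_comm]
    apply Finset.sum_le_sum
    intro k _
    have e4 : ENNReal.ofReal (p k * ((1 + 1 / δ k) * (96 * (2 ^ k * r) ^ 2)) * (8 * T k)) =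
        ENNReal.ofReal (p k * ((1 + 1 / δ k) * (96 * (2 ^ k * r) ^ 2))) *
          ENNReal.ofReal (8 * T k) := ENNReal.ofReal_mul (by
      have := hpn k
      have := hδ k
      positivity)
    rw [← Finset.mul_sum, e4, mul_assoc]
    gcongr
    exact e3 k

/-- The real form. -/
theorem move_up {ψ : Cfg κ → ℂ} (hψ : ContDiff ℝ 1 ψ) (hs : HasCompactSupport ψ)
    {T : ℕ → ℝ} (hT : ∀ k, 0 ≤ T k)
    {r : ℝ} (hr : 0 < r) {δ p : ℕ → ℝ} (hδ : ∀ k, 0 < δ k) (hp0 : p 0 = 1) (hpn : ∀ k, 0 ≤ p k)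
    (hp : ∀ k, p (k + 1) = p k * ((1 + δ k) / 8)) (K : ℕ) :
    ∫ X, ordS r X * ‖ψ X‖ ^ 2 ≤
      (∑ k ∈ Finset.range K, p k * ∫ X, crw (T k) (2 ^ k * r) X * ‖ψ X‖ ^ 2) +
      (∑ k ∈ Finset.range K, p k * ((1 + 1 / δ k) * (96 * (2 ^ k * r) ^ 2)) * (8 * T k)) *
        (∫ X, grad2 ψ X) + p K * ∫ X, ordS (2 ^ K * r) X * ‖ψ X‖ ^ 2 := by
  have h1 := move_up_lintegral hψ hT hr hδ hp0 hpn hp K
  have hO : ∀ ρ : ℝ, Integrable fun X : Cfg κ => ordS ρ X * ‖ψ X‖ ^ 2 := fun ρ =>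
    integrable_bdd hψ.continuous hs (measurable_ordS ρ) (B := (Fintype.card κ : ℝ) ^ 2)
      (fun X => by
        rw [abs_of_nonneg (ordS_nonneg _ X)]
        exact ordS_le _ X)
  have hC : ∀ t ρ : ℝ, Integrable fun X : Cfg κ => crw t ρ X * ‖ψ X‖ ^ 2 := fun t ρ =>
    integrable_bdd hψ.continuous hs (measurable_crw t ρ) (B := (Fintype.card κ : ℝ) ^ 2)
      (fun X => by
        rw [abs_of_nonneg (crw_nonneg _ _ X)]
        exact crw_le _ _ X)
  have hG : Integrable fun X : Cfg κ => grad2 ψ X := integrable_grad2 hψ hs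
  have eO : ∀ ρ : ℝ, ∫⁻ X : Cfg κ, ENNReal.ofReal (ordS ρ X) * ENNReal.ofReal (‖ψ X‖ ^ 2) =
      ENNReal.ofReal (∫ X, ordS ρ X * ‖ψ X‖ ^ 2) := by
    intro ρ
    rw [ofReal_integral_eq_lintegral_ofReal (hO ρ)
      (Filter.Eventually.of_forall fun X => mul_nonneg (ordS_nonneg _ _) (sq_nonneg _))]
    apply lintegral_congr
    intro X
    rw [ENNReal.ofReal_mul (ordS_nonneg _ _)]
  have eC : ∀ t ρ : ℝ, ∫⁻ X : Cfg κ, ENNReal.ofReal (crw t ρ X) * ENNReal.ofReal (‖ψ X‖ ^ 2) =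
      ENNReal.ofReal (∫ X, crw t ρ X * ‖ψ X‖ ^ 2) := by
    intro t ρ
    rw [ofReal_integral_eq_lintegral_ofReal (hC t ρ)
      (Filter.Eventually.of_forall fun X => mul_nonneg (crw_nonneg _ _ _) (sq_nonneg _))]
    apply lintegral_congr
    intro X
    rw [ENNReal.ofReal_mul (crw_nonneg _ _ _)]
  have eG : ∫⁻ X : Cfg κ, ENNReal.ofReal (grad2 ψ X) = ENNReal.ofReal (∫ X, grad2 ψ X) := by
    rw [ofReal_integral_eq_lintegral_ofReal hG
      (Filter.Eventually.of_forall fun X => grad2_nonneg _ _)]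
  have nO : ∀ ρ : ℝ, 0 ≤ ∫ X : Cfg κ, ordS ρ X * ‖ψ X‖ ^ 2 := fun ρ =>
    integral_nonneg fun X => mul_nonneg (ordS_nonneg _ _) (sq_nonneg _)
  have nC : ∀ t ρ : ℝ, 0 ≤ ∫ X : Cfg κ, crw t ρ X * ‖ψ X‖ ^ 2 := fun t ρ =>
    integral_nonneg fun X => mul_nonneg (crw_nonneg _ _ _) (sq_nonneg _)
  have nG : 0 ≤ ∫ X : Cfg κ, grad2 ψ X := integral_nonneg fun X => grad2_nonneg _ _
  have nc : ∀ k, 0 ≤ p k * ((1 + 1 / δ k) * (96 * (2 ^ k * r) ^ 2)) * (8 * T k) := by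
    intro k
    have := hpn k
    have := hδ k
    have := hT k
    positivity
  simp_rw [eO, eC, eG] at h1
  have e4 : ∀ k : ℕ, ENNReal.ofReal (p k) *
      ENNReal.ofReal (∫ X : Cfg κ, crw (T k) (2 ^ k * r) X * ‖ψ X‖ ^ 2) =
      ENNReal.ofReal (p k * ∫ X : Cfg κ, crw (T k) (2 ^ k * r) X * ‖ψ X‖ ^ 2) := fun k =>
    (ENNReal.ofReal_mul (hpn k)).symm
  have e5 : ∀ k : ℕ, ENNReal.ofReal (p k * ((1 + 1 / δ k) * (96 * (2 ^ k * r) ^ 2)) *
        (8 * T k)) * ENNReal.ofReal (∫ X : Cfg κ, grad2 ψ X) =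
      ENNReal.ofReal (p k * ((1 + 1 / δ k) * (96 * (2 ^ k * r) ^ 2)) *
        (8 * T k) * ∫ X : Cfg κ, grad2 ψ X) := fun k => (ENNReal.ofReal_mul (nc k)).symm
  simp_rw [e4, e5] at h1
  rw [← ENNReal.ofReal_sum_of_nonneg (fun k _ => mul_nonneg (hpn k) (nC _ _)),
    ← ENNReal.ofReal_sum_of_nonneg (fun k _ => mul_nonneg (nc k) nG),
    ← ENNReal.ofReal_mul (hpn K), ← ENNReal.ofReal_add, ← ENNReal.ofReal_add,
    ENNReal.ofReal_le_ofReal_iff, ← Finset.sum_mul] at h1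
  · exact h1
  · exact add_nonneg (add_nonneg (Finset.sum_nonneg fun k _ => mul_nonneg (hpn k) (nC _ _))
      (Finset.sum_nonneg fun k _ => mul_nonneg (nc k) nG)) (mul_nonneg (hpn K) (nO _))
  · exact add_nonneg (Finset.sum_nonneg fun k _ => mul_nonneg (hpn k) (nC _ _))
      (Finset.sum_nonneg fun k _ => mul_nonneg (nc k) nG)
  · exact mul_nonneg (hpn K) (nO _)
  · exact Finset.sum_nonneg fun k _ => mul_nonneg (hpn k) (nC _ _)
  · exact Finset.sum_nonneg fun k _ => mul_nonneg (nc k) nG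

end Main

end Pool.Agent.H98.Bose2
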