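import Pool.Agent.H98.Bose2.StableCore

/-!
# Weak pair interactions at `β = 1/3`
-/

set_option autoImplicit false

namespace Pool.Agent.H98.Bose2

open MeasureTheory Set Pool.Agent.H50.Bose

/-- The pair energy is controlled by the kinetic energy and the three-body energy at `β = 1/3`,
for a weak pair interaction. -/
theorem pairs_bound_third
    {V : (Fin 3 → ℝ) → (Fin 3 → ℝ) → ℝ} (hV : IsThreeBody V) (RW : ℝ) :
    ∃ b : ℝ, 0 < b ∧ ∃ C : ℝ, 0 ≤ C ∧ ∀ N : ℕ, 1 ≤ N → ∀ ψ : Cfg (Fin N) → ℂ, ContDiff ℝ 1 ψ →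
      HasCompactSupport ψ →
      b * (N : ℝ) ^ (3 * (1 / 3 : ℝ) - 1) *
          (∫ X, pairsAt (RW * (N : ℝ) ^ (-(1 / 3 : ℝ))) X * ‖ψ X‖ ^ 2) ≤
        C * N * (∫ X, ‖ψ X‖ ^ 2) +
          ∫ X, tot (v3s V ((N : ℝ) ^ (1 / 2 : ℝ))) ψ X := by
  obtain ⟨β, hβ⟩ : ∃ β : ℝ, β = 1 / 3 := ⟨_, rfl⟩
  rw [← hβ]
  obtain ⟨RV, hRV0, hRV⟩ := hV.exists_supp
  obtain ⟨μ, hμ0, hμ⟩ := hV.exists_mass
  obtain ⟨BV, hBV⟩ := hV.bdd
  have hBV0 : 0 ≤ BV := (hV.nonneg 0 0).trans (hBV 0 0)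
  set k0 : ℝ := 4 * RV + 1 with hk0
  have hk0pos : 0 < k0 := by positivity
  obtain ⟨A, hA0, hA⟩ := tb_model hV.measurable hμ0 hBV0 hBV hRV hμ hk0pos (by linarith)
  set b : ℝ := 1 / (162 * (A * k0 ^ 2)) with hb
  have hbpos : 0 < b := by positivity
  have hb0 : 0 ≤ b := hbpos.le
  refine ⟨b, hbpos, ?_⟩
  set m : ℝ := max 1 (RW / k0) with hm
  have hm1 : 1 ≤ m := le_max_left _ _
  have hm2 : RW / k0 ≤ m := le_max_right _ _
  set c3 : ℝ := 2592 * 64 / 7 * (A * k0 ^ 2 * b * m ^ 3) + 1 with hc3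
  have hc30 : 1 ≤ c3 := by
    have : 0 ≤ 2592 * 64 / 7 * (A * k0 ^ 2 * b * m ^ 3) := by positivity
    linarith
  set ε : ℝ := 1 / (2 * c3) with hε
  have hε0 : 0 < ε := by positivity
  have hε1 : ε ≤ 1 := by
    rw [hε, div_le_one (by positivity)]
    linarith
  set C1 : ℝ := 3456 * b * m ^ 3 / ε with hC1
  have hC10 : 0 ≤ C1 := by positivity
  -- threshold
  have hlim1 : ∀ᶠ N : ℕ in Filter.atTop, 162 * b * (A * k0 ^ 2) * (N : ℝ) ^ (3 * β - 1) ≤ 1 := by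
    refine Filter.Eventually.of_forall fun N => ?_
    have e : 3 * β - 1 = 0 := by
      rw [hβ]
      norm_num
    rw [e, Real.rpow_zero, hb]
    apply le_of_eq
    field_simp
  have hlim2 : ∀ᶠ N : ℕ in Filter.atTop, 1 ≤ ε * (N : ℝ) ^ (1 / 2 : ℝ) := by
    have h1 : Filter.Tendsto (fun N : ℕ => (N : ℝ) ^ (1 / 2 : ℝ)) Filter.atTop Filter.atTop :=
      (tendsto_rpow_atTop (by norm_num)).comp tendsto_natCast_atTop_atTop
    have h2 := h1.eventually (Filter.eventually_ge_atTop (1 / ε))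
    filter_upwards [h2] with N hN
    rw [div_le_iff₀ hε0] at hN
    linarith
  obtain ⟨N0, hN0⟩ := Filter.eventually_atTop.mp (hlim1.and hlim2)
  refine ⟨C1 + b * N0 + 1, by positivity, ?_⟩
  intro N hN ψ hψ1 hψs
  have hNpos : (0 : ℝ) < N := by exact_mod_cast hN
  have hN1 : (1 : ℝ) ≤ N := by exact_mod_cast hN
  have hI0 : 0 ≤ ∫ X, ‖ψ X‖ ^ 2 := integral_nonneg fun X => sq_nonneg _
  set s := (N : ℝ) ^ (1 / 2 : ℝ) with hs
  have hspos : 0 < s := Real.rpow_pos_of_pos hNpos _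
  have hs2 : s ^ 2 = N := sq_half hN
  set t := (N : ℝ) ^ (3 * β - 1) with ht
  have htpos : 0 < t := Real.rpow_pos_of_pos hNpos _
  have ht1 : t ≤ 1 := Real.rpow_le_one_of_one_le_of_nonpos hN1 (by linarith)
  set v3 := v3s V s with hv3
  have hvm := measurable_v3s hV.measurable s
  have hv0 : ∀ x y z, 0 ≤ v3 x y z := fun x y z => mul_nonneg (sq_nonneg _) (hV.nonneg _ _)
  have htn : ∀ X, 0 ≤ tot v3 ψ X := fun X =>
    add_nonneg (grad2_nonneg _ _) (mul_nonneg (pot3_nonneg hv0 X) (sq_nonneg _))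
  have hE0 : 0 ≤ ∫ X, tot v3 ψ X := integral_nonneg htn
  have hfin : ∀ c : ℝ, 0 ≤ c → c ≤ (C1 + b * N0 + 1) * N →
      b * t * (∫ X, pairsAt (RW * (N : ℝ) ^ (-β)) X * ‖ψ X‖ ^ 2) ≤ c * (∫ X, ‖ψ X‖ ^ 2) +
        ∫ X, tot v3 ψ X →
      b * t * (∫ X, pairsAt (RW * (N : ℝ) ^ (-β)) X * ‖ψ X‖ ^ 2) ≤
        (C1 + b * N0 + 1) * N * (∫ X, ‖ψ X‖ ^ 2) + ∫ X, tot v3 ψ X := by
    intro c hc0 hc h
    have h2 := mul_le_mul_of_nonneg_right hc hI0
    linarith
  rcases lt_or_ge N N0 with hNN | hNN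
  · -- small N
    apply hfin (b * N0 * N) (by positivity) (by nlinarith)
    have h1 : ∫ X, pairsAt (RW * (N : ℝ) ^ (-β)) X * ‖ψ X‖ ^ 2 ≤
        (N : ℝ) ^ 2 * ∫ X, ‖ψ X‖ ^ 2 := by
      rw [← integral_const_mul]
      apply integral_mono
      · exact integrable_bdd hψ1.continuous hψs (measurable_pairsAt _) (B := (N : ℝ) ^ 2)
          (fun X => by
            rw [abs_of_nonneg (pairsAt_nonneg _ X)]
            exact pairsAt_le _ X)
      · exact (integrable_sq hψ1.continuous hψs).const_mul _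
      · intro X
        exact mul_le_mul_of_nonneg_right (pairsAt_le _ X) (sq_nonneg _)
    have hNN' : (N : ℝ) ≤ N0 := by exact_mod_cast hNN.le
    have h2 : b * t * (∫ X, pairsAt (RW * (N : ℝ) ^ (-β)) X * ‖ψ X‖ ^ 2) ≤
        b * 1 * ((N : ℝ) ^ 2 * ∫ X, ‖ψ X‖ ^ 2) := by
      have hp0 : 0 ≤ ∫ X, pairsAt (RW * (N : ℝ) ^ (-β)) X * ‖ψ X‖ ^ 2 :=
        integral_nonneg fun X => mul_nonneg (pairsAt_nonneg _ _) (sq_nonneg _)
      gcongr
    have h3 : b * 1 * ((N : ℝ) ^ 2 * ∫ X, ‖ψ X‖ ^ 2) ≤ b * N0 * N * ∫ X, ‖ψ X‖ ^ 2 := by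
      have : b * (N : ℝ) ^ 2 ≤ b * N0 * N := by
        rw [mul_assoc, sq]
        gcongr
      calc _ = b * (N : ℝ) ^ 2 * ∫ X, ‖ψ X‖ ^ 2 := by ring
        _ ≤ _ := mul_le_mul_of_nonneg_right this hI0
    linarith
  · -- large N
    obtain ⟨hl1, hl2⟩ := hN0 N hNN
    set y := (N : ℝ) ^ (1 / 2 - β) with hy
    have hypos : 0 < y := Real.rpow_pos_of_pos hNpos _
    have hy1 : 1 ≤ y := Real.one_le_rpow hN1 (by linarith)
    have hy3 : y ^ 3 * t = s := by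
      rw [hy, ht, hs, ← Real.rpow_natCast, ← Real.rpow_mul hNpos.le, ← Real.rpow_add hNpos]
      congr 1
      push_cast
      ring
    have hys : y / s = (N : ℝ) ^ (-β) := by
      rw [hy, hs, ← Real.rpow_sub hNpos]
      congr 1
      ring
    have hT1 : 1 ≤ m * y := by nlinarith
    obtain ⟨n, hn1, hn2⟩ := exists_nat_pow_near hT1 (show (1 : ℝ) < 2 by norm_num)
    set J := n + 1 with hJ
    have hJ1 : m * y ≤ 2 ^ J := hn2.le
    have hJ2 : (2 : ℝ) ^ J ≤ 2 * (m * y) := by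
      rw [hJ, pow_succ]
      linarith
    obtain ⟨J0, hJ01, hJ02⟩ := exists_nat_pow_near hl2 (show (1 : ℝ) < 8 by norm_num)
    have h8J : (8 : ℝ) ^ J = (2 ^ J) ^ 3 := by
      rw [← pow_mul, mul_comm, pow_mul]
      norm_num
    have h8J1 : (8 : ℝ) ^ J ≤ 8 * m ^ 3 * y ^ 3 := by
      rw [h8J]
      calc ((2 : ℝ) ^ J) ^ 3 ≤ (2 * (m * y)) ^ 3 := by gcongr
        _ = _ := by ring
    have h8J2 : s ≤ (8 : ℝ) ^ J := by
      rw [h8J]
      calc s = y ^ 3 * t := hy3.symm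
        _ ≤ y ^ 3 * 1 := by gcongr
        _ = y ^ 3 := mul_one _
        _ ≤ (2 ^ J) ^ 3 := by
          apply pow_le_pow_left₀ hypos.le
          nlinarith
    have hJJ : J0 ≤ J := by
      have h1 : (8 : ℝ) ^ J0 ≤ 8 ^ J := by
        calc (8 : ℝ) ^ J0 ≤ ε * s := hJ01
          _ ≤ 1 * s := by gcongr
          _ = s := one_mul _
          _ ≤ _ := h8J2
      exact (pow_le_pow_iff_right₀ (by norm_num)).mp h1
    set h := k0 / s with hh
    have hhpos : 0 < h := by positivity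
    set D := A * h ^ 2 with hD
    have hDpos : 0 < D := by positivity
    have hDN : D = A * k0 ^ 2 / N := by
      rw [hD, hh, div_pow, hs2]
      ring
    have hat : b * t * 8 ^ J ≤ 8 * b * m ^ 3 * s := by
      calc b * t * 8 ^ J ≤ b * t * (8 * m ^ 3 * y ^ 3) := by gcongr
        _ = 8 * b * m ^ 3 * (y ^ 3 * t) := by ring
        _ = _ := by rw [hy3]
    have hCC1 : 54 * (b * t) * 8 ^ (J - J0) ≤ C1 := by
      have h1 : (8 : ℝ) ^ (J - J0) * 8 ^ J0 = 8 ^ J := by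
        rw [← pow_add]
        congr 1
        omega
      have h2 : ε * s / 8 ≤ 8 ^ J0 := by
        rw [pow_succ] at hJ02
        linarith
      have h3 : 54 * (b * t) * 8 ^ (J - J0) * (ε * s / 8) ≤ 54 * (8 * b * m ^ 3 * s) := by
        calc 54 * (b * t) * 8 ^ (J - J0) * (ε * s / 8) ≤
            54 * (b * t) * 8 ^ (J - J0) * 8 ^ J0 := by gcongr
          _ = 54 * (b * t * 8 ^ J) := by rw [← h1]; ring
          _ ≤ _ := by gcongr
      rw [hC1, le_div_iff₀ hε0]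
      have h4 : 54 * (b * t) * 8 ^ (J - J0) * ε * s ≤ 3456 * b * m ^ 3 * s := by
        linarith
      exact le_of_mul_le_mul_right h4 hspos
    have hCC2 : 162 * (b * t) * N * D ≤ 1 := by
      rw [hDN]
      refine le_trans (le_of_eq ?_) hl1
      rw [← ht]
      field_simp
    have hCC3 : 2592 * (b * t) * D * 8 ^ J * 8 ^ (J0 + 1) / 7 ≤ 1 / 2 := by
      have h1 : (8 : ℝ) ^ (J0 + 1) ≤ 8 * (ε * s) := by
        rw [pow_succ]
        linarith
      calc 2592 * (b * t) * D * 8 ^ J * 8 ^ (J0 + 1) / 7 =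
          2592 / 7 * D * (b * t * 8 ^ J) * 8 ^ (J0 + 1) := by ring
        _ ≤ 2592 / 7 * D * (8 * b * m ^ 3 * s) * (8 * (ε * s)) := by gcongr
        _ = 2592 * 64 / 7 * (b * m ^ 3) * ε * (D * s ^ 2) := by ring
        _ = 2592 * 64 / 7 * (A * k0 ^ 2 * b * m ^ 3) * ε := by
          rw [hDN, hs2]
          field_simp
        _ ≤ c3 * ε := by
          gcongr
          rw [hc3]
          linarith
        _ = 1 / 2 := by
          rw [hε]
          field_simp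
    have hρ : RW * (N : ℝ) ^ (-β) ≤ 2 ^ J * h := by
      rw [← hys]
      calc RW * (y / s) = (RW / k0) * y * (k0 / s) := by field_simp
        _ ≤ m * y * (k0 / s) := by gcongr
        _ ≤ 2 ^ J * h := by gcongr
    apply hfin (C1 * N) (by positivity) (by
      have : 0 ≤ (b * N0 + 1) * N := by positivity
      nlinarith)
    exact int_bound hvm hv0 (v3s_symm hV s) (v3s_symm' hV s) (B := s ^ 2 * BV) (by positivity)
      (fun x y z => mul_le_mul_of_nonneg_left (hBV _ _) (sq_nonneg _)) hhpos hDpos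
      (fun j => by
        have := hA s hspos j
        have e : A * 64 ^ j * (k0 / s) ^ 2 = D * 64 ^ j := by
          rw [hD, hh]
          ring
        rwa [e] at this) hJJ hρ (by positivity) hCC1 hCC2 hCC3 hψ1 hψs


/-- Stability at `1/3` for a weak pair interaction. -/
theorem stable_third_weak {V : (Fin 3 → ℝ) → (Fin 3 → ℝ) → ℝ} (hV : IsThreeBody V)
    (R : ℝ) : ∃ b : ℝ, 0 < b ∧ ∀ U : (Fin 3 → ℝ) → ℝ, IsTrap U →
      ∀ W : (Fin 3 → ℝ) → ℝ, IsPair W → (∀ x, |W x| ≤ b) → (∀ x, W x ≠ 0 → len x ≤ R) →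
      Stable (1 / 3) U V W := by
  obtain ⟨b, hb, C, hC0, hC⟩ := pairs_bound_third hV R
  refine ⟨b, hb, ?_⟩
  intro U hU W hW hWb hWR
  refine ⟨C + 1, by positivity, ?_⟩
  intro N hN ψ hψ
  have hψ1 : ContDiff ℝ 1 ψ := hψ.smooth.of_le (by exact_mod_cast le_top)
  have h1 := hC N hN ψ hψ1 hψ.supp
  have hR : ∀ x, W x ≠ 0 → ∀ a, |x a| ≤ R := by
    intro x hx a
    refine le_trans ?_ (hWR x hx)
    unfold len
    rw [← Real.sqrt_sq_eq_abs]
    exact Real.sqrt_le_sqrt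
      (Finset.single_le_sum (fun i _ => sq_nonneg (x i)) (Finset.mem_univ a))
  have hNpos : (0 : ℝ) < N := by exact_mod_cast hN
  have h2 := energy_ge hN hU hV hWb hR hψ (c := C * N) (by positivity) h1
  have h3 : 0 ≤ (N : ℝ) * ∫ X, ‖ψ X‖ ^ 2 :=
    mul_nonneg hNpos.le (integral_nonneg fun X => sq_nonneg _)
  linarith

end Pool.Agent.H98.Bose2
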